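import Pool.Agent.Helper13.KC.E2f.H
import Pool.Agent.Helper41.KV.GoodF
import Pool.Agent.Helper41.KE.AdmR

set_option autoImplicit false
set_option maxRecDepth 100000

/-!
The pointwise inequality.
-/

namespace KC.E2f

open KC

theorem kD_all : ∀ l ∈ KV.adms, l.all (KV.ckDr KC.E2D DT 1237940039285380274899124224) = true := by decide +kernel

theorem goodD : ∀ r < 1024, vio0 r = false → KV.ckDr KC.E2D DT 1237940039285380274899124224 r = true := fun r hr hv => by
  obtain ⟨l, hl, h⟩ := KV.mem_adms hr hv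
  exact List.all_eq_true.1 (kD_all l hl) r h

theorem len_treeM : treeM.tr.length = 35 := by decide +kernel

theorem offV_eq : KC.E2VT.TV.OFF = 140737488355328 := by decide +kernel

/-- The sum of the families. -/
noncomputable def S (m : Nat) : ℤ :=
  fam tree5.tr KC.E2.C5.G5 m + (fam tree3.tr KC.E2.C3.G3 m + (fam tree1.tr KC.E2.C1.G1 m +
    (fam treeM.tr KC.E2VT.TV.GV m + fam treeD.tr KC.E2D.GD m)))

theorem hpt {gens : Nat → List (List Nat)} {cert : List (Nat × List (List Nat))}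
    {AT : Nat → Nat → BT} (h5 : KC.E2.C5.Good gens cert) (h3 : KC.E2.C3.Good3 AT) (h1 : KC.E2.C1.Good1)
    (hD : KC.E2D.Good) :
    ∀ m ∈ KE.reps7, S m + fam treeF.tr (fz ((42000000000 : Nat) : ℤ) ((36000000000 : Nat) : ℤ) ((2100000000 : Nat) : ℤ)
      ((24780000 : Nat) : ℤ)) m + ((642810 : Nat) : ℤ) ≤ 0 := by
  intro m hm
  have hA := KE.adm_reps7 m hm
  have h : KV.FV KV.R5 pv KC.E2.QT3 KC.E2.QT1 m + ex m ≤ 25996740825025496133395689734 := fall m hm
  have e1 : ((KV.FV KV.R5 pv KC.E2.QT3 KC.E2.QT1 m : Nat) : ℤ) = _ :=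
    KV.FV_F (T5 := KC.E2.C5) (T3 := KC.E2.C3) (T1 := KC.E2.C1) (TD := KC.E2D) (D := DT) (C0 := 1237940039285380274899124224)
      (A := 42000000000) (B := 36000000000) (C := 2100000000) (D' := 24780000) (X := 8774432) (OFF := 33554432)
      (KV.goodR KC.E2.QT5 KC.E2.QT3 KC.E2.QT1 140737488355328 140737488355328 140737488355328) h5 h3 h1 hD goodD KV.goodF (by norm_num) hA
  have e2 : ((ex m : Nat) : ℤ) = _ :=
    WT.famK_int treeM (VTab.gVK KC.E2VT.TV 18446744073709551615) KC.E2VT.TV.GV (KC.E2VT.TV.OFF : ℤ) m 0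
      (fun U _ => VTab.gVK_eq KC.E2VT.good KC.E2VT.good2 (awl_lt U hA.lt))
  rw [len_treeM, offV_eq] at e2
  have o5 : KC.E2.C5.OFF = 140737488355328 := rfl
  have o3 : KC.E2.C3.OFF = 140737488355328 := rfl
  have o1 : KC.E2.C1.OFF = 140737488355328 := rfl
  rw [o5, o3, o1] at e1
  have h' : ((KV.FV KV.R5 pv KC.E2.QT3 KC.E2.QT1 m : Nat) : ℤ) + ((ex m : Nat) : ℤ) ≤ 25996740825025496133395689734 := by
    exact_mod_cast h
  rw [e1, e2] at h'
  unfold S
  generalize fam tree5.tr KC.E2.C5.G5 m = x5 at *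
  generalize fam tree3.tr KC.E2.C3.G3 m = x3 at *
  generalize fam tree1.tr KC.E2.C1.G1 m = x1 at *
  generalize fam treeM.tr KC.E2VT.TV.GV m = xV at *
  generalize fam treeD.tr KC.E2D.GD m = xD at *
  generalize fam treeF.tr (fz _ _ _ _) m = xF at *
  push_cast at h' ⊢
  linarith

end KC.E2f
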