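import Pool.Agent.Helper13.KC.E2f.Fn
import Pool.Agent.Helper41.KV.EvD
import Pool.Agent.Helper41.KV.R5
import Pool.Agent.Helper41.KE.Reps

set_option autoImplicit false
set_option maxRecDepth 100000

/-!
Evaluation of four blocks.
-/

namespace KC.E2f

theorem k0_0 : KV.okL (KV.qt KE.rb0 0) = true := by decide +kernel

theorem e0_0 : KV.blk KV.R5 pv KC.E2.QT3 KC.E2.QT1 ex bd (KV.qt KE.rb0 0) = true := by
  decide +kernel

theorem k0_1 : KV.okL (KV.qt KE.rb0 1) = true := by decide +kernel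

theorem e0_1 : KV.blk KV.R5 pv KC.E2.QT3 KC.E2.QT1 ex bd (KV.qt KE.rb0 1) = true := by
  decide +kernel

theorem k0_2 : KV.okL (KV.qt KE.rb0 2) = true := by decide +kernel

theorem e0_2 : KV.blk KV.R5 pv KC.E2.QT3 KC.E2.QT1 ex bd (KV.qt KE.rb0 2) = true := by
  decide +kernel

theorem k0_3 : KV.okL (KV.qt KE.rb0 3) = true := by decide +kernel

theorem e0_3 : KV.blk KV.R5 pv KC.E2.QT3 KC.E2.QT1 ex bd (KV.qt KE.rb0 3) = true := by
  decide +kernel

theorem k1_0 : KV.okL (KV.qt KE.rb1 0) = true := by decide +kernel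

theorem e1_0 : KV.blk KV.R5 pv KC.E2.QT3 KC.E2.QT1 ex bd (KV.qt KE.rb1 0) = true := by
  decide +kernel

theorem k1_1 : KV.okL (KV.qt KE.rb1 1) = true := by decide +kernel

theorem e1_1 : KV.blk KV.R5 pv KC.E2.QT3 KC.E2.QT1 ex bd (KV.qt KE.rb1 1) = true := by
  decide +kernel

theorem k1_2 : KV.okL (KV.qt KE.rb1 2) = true := by decide +kernel

theorem e1_2 : KV.blk KV.R5 pv KC.E2.QT3 KC.E2.QT1 ex bd (KV.qt KE.rb1 2) = true := by
  decide +kernel

theorem k1_3 : KV.okL (KV.qt KE.rb1 3) = true := by decide +kernel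

theorem e1_3 : KV.blk KV.R5 pv KC.E2.QT3 KC.E2.QT1 ex bd (KV.qt KE.rb1 3) = true := by
  decide +kernel

theorem k2_0 : KV.okL (KV.qt KE.rb2 0) = true := by decide +kernel

theorem e2_0 : KV.blk KV.R5 pv KC.E2.QT3 KC.E2.QT1 ex bd (KV.qt KE.rb2 0) = true := by
  decide +kernel

theorem k2_1 : KV.okL (KV.qt KE.rb2 1) = true := by decide +kernel

theorem e2_1 : KV.blk KV.R5 pv KC.E2.QT3 KC.E2.QT1 ex bd (KV.qt KE.rb2 1) = true := by
  decide +kernel

theorem k2_2 : KV.okL (KV.qt KE.rb2 2) = true := by decide +kernel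

theorem e2_2 : KV.blk KV.R5 pv KC.E2.QT3 KC.E2.QT1 ex bd (KV.qt KE.rb2 2) = true := by
  decide +kernel

theorem k2_3 : KV.okL (KV.qt KE.rb2 3) = true := by decide +kernel

theorem e2_3 : KV.blk KV.R5 pv KC.E2.QT3 KC.E2.QT1 ex bd (KV.qt KE.rb2 3) = true := by
  decide +kernel

theorem k3_0 : KV.okL (KV.qt KE.rb3 0) = true := by decide +kernel

theorem e3_0 : KV.blk KV.R5 pv KC.E2.QT3 KC.E2.QT1 ex bd (KV.qt KE.rb3 0) = true := by
  decide +kernel

theorem k3_1 : KV.okL (KV.qt KE.rb3 1) = true := by decide +kernel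

theorem e3_1 : KV.blk KV.R5 pv KC.E2.QT3 KC.E2.QT1 ex bd (KV.qt KE.rb3 1) = true := by
  decide +kernel

theorem k3_2 : KV.okL (KV.qt KE.rb3 2) = true := by decide +kernel

theorem e3_2 : KV.blk KV.R5 pv KC.E2.QT3 KC.E2.QT1 ex bd (KV.qt KE.rb3 2) = true := by
  decide +kernel

theorem k3_3 : KV.okL (KV.qt KE.rb3 3) = true := by decide +kernel

theorem e3_3 : KV.blk KV.R5 pv KC.E2.QT3 KC.E2.QT1 ex bd (KV.qt KE.rb3 3) = true := by
  decide +kernel

end KC.E2f
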