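import Pool.Agent.Helper13.KC.E2f.Fn
import Pool.Agent.Helper41.KV.EvD
import Pool.Agent.Helper41.KV.R5
import Pool.Agent.Helper41.KE.Reps

set_option autoImplicit false
set_option maxRecDepth 100000

/-!
Evaluation of four blocks.
-/

namespace KC.E2f

theorem k4_0 : KV.okL (KV.qt KE.rb4 0) = true := by decide +kernel

theorem e4_0 : KV.blk KV.R5 pv KC.E2.QT3 KC.E2.QT1 ex bd (KV.qt KE.rb4 0) = true := by
  decide +kernel

theorem k4_1 : KV.okL (KV.qt KE.rb4 1) = true := by decide +kernel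

theorem e4_1 : KV.blk KV.R5 pv KC.E2.QT3 KC.E2.QT1 ex bd (KV.qt KE.rb4 1) = true := by
  decide +kernel

theorem k4_2 : KV.okL (KV.qt KE.rb4 2) = true := by decide +kernel

theorem e4_2 : KV.blk KV.R5 pv KC.E2.QT3 KC.E2.QT1 ex bd (KV.qt KE.rb4 2) = true := by
  decide +kernel

theorem k4_3 : KV.okL (KV.qt KE.rb4 3) = true := by decide +kernel

theorem e4_3 : KV.blk KV.R5 pv KC.E2.QT3 KC.E2.QT1 ex bd (KV.qt KE.rb4 3) = true := by
  decide +kernel

theorem k5_0 : KV.okL (KV.qt KE.rb5 0) = true := by decide +kernel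

theorem e5_0 : KV.blk KV.R5 pv KC.E2.QT3 KC.E2.QT1 ex bd (KV.qt KE.rb5 0) = true := by
  decide +kernel

theorem k5_1 : KV.okL (KV.qt KE.rb5 1) = true := by decide +kernel

theorem e5_1 : KV.blk KV.R5 pv KC.E2.QT3 KC.E2.QT1 ex bd (KV.qt KE.rb5 1) = true := by
  decide +kernel

theorem k5_2 : KV.okL (KV.qt KE.rb5 2) = true := by decide +kernel

theorem e5_2 : KV.blk KV.R5 pv KC.E2.QT3 KC.E2.QT1 ex bd (KV.qt KE.rb5 2) = true := by
  decide +kernel

theorem k5_3 : KV.okL (KV.qt KE.rb5 3) = true := by decide +kernel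

theorem e5_3 : KV.blk KV.R5 pv KC.E2.QT3 KC.E2.QT1 ex bd (KV.qt KE.rb5 3) = true := by
  decide +kernel

theorem k6_0 : KV.okL (KV.qt KE.rb6 0) = true := by decide +kernel

theorem e6_0 : KV.blk KV.R5 pv KC.E2.QT3 KC.E2.QT1 ex bd (KV.qt KE.rb6 0) = true := by
  decide +kernel

theorem k6_1 : KV.okL (KV.qt KE.rb6 1) = true := by decide +kernel

theorem e6_1 : KV.blk KV.R5 pv KC.E2.QT3 KC.E2.QT1 ex bd (KV.qt KE.rb6 1) = true := by
  decide +kernel

theorem k6_2 : KV.okL (KV.qt KE.rb6 2) = true := by decide +kernel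

theorem e6_2 : KV.blk KV.R5 pv KC.E2.QT3 KC.E2.QT1 ex bd (KV.qt KE.rb6 2) = true := by
  decide +kernel

theorem k6_3 : KV.okL (KV.qt KE.rb6 3) = true := by decide +kernel

theorem e6_3 : KV.blk KV.R5 pv KC.E2.QT3 KC.E2.QT1 ex bd (KV.qt KE.rb6 3) = true := by
  decide +kernel

theorem k7_0 : KV.okL (KV.qt KE.rb7 0) = true := by decide +kernel

theorem e7_0 : KV.blk KV.R5 pv KC.E2.QT3 KC.E2.QT1 ex bd (KV.qt KE.rb7 0) = true := by
  decide +kernel

theorem k7_1 : KV.okL (KV.qt KE.rb7 1) = true := by decide +kernel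

theorem e7_1 : KV.blk KV.R5 pv KC.E2.QT3 KC.E2.QT1 ex bd (KV.qt KE.rb7 1) = true := by
  decide +kernel

theorem k7_2 : KV.okL (KV.qt KE.rb7 2) = true := by decide +kernel

theorem e7_2 : KV.blk KV.R5 pv KC.E2.QT3 KC.E2.QT1 ex bd (KV.qt KE.rb7 2) = true := by
  decide +kernel

theorem k7_3 : KV.okL (KV.qt KE.rb7 3) = true := by decide +kernel

theorem e7_3 : KV.blk KV.R5 pv KC.E2.QT3 KC.E2.QT1 ex bd (KV.qt KE.rb7 3) = true := by
  decide +kernel

end KC.E2f
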