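import Pool.Agent.Helper13.KC.E2f.Fn
import Pool.Agent.Helper41.KV.EvD
import Pool.Agent.Helper41.KV.R5
import Pool.Agent.Helper41.KE.Reps

set_option autoImplicit false
set_option maxRecDepth 100000

/-!
Evaluation of four blocks.
-/

namespace KC.E2f

theorem k40_0 : KV.okL (KV.qt KE.rb40 0) = true := by decide +kernel

theorem e40_0 : KV.blk KV.R5 pv KC.E2.QT3 KC.E2.QT1 ex bd (KV.qt KE.rb40 0) = true := by
  decide +kernel

theorem k40_1 : KV.okL (KV.qt KE.rb40 1) = true := by decide +kernel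

theorem e40_1 : KV.blk KV.R5 pv KC.E2.QT3 KC.E2.QT1 ex bd (KV.qt KE.rb40 1) = true := by
  decide +kernel

theorem k40_2 : KV.okL (KV.qt KE.rb40 2) = true := by decide +kernel

theorem e40_2 : KV.blk KV.R5 pv KC.E2.QT3 KC.E2.QT1 ex bd (KV.qt KE.rb40 2) = true := by
  decide +kernel

theorem k40_3 : KV.okL (KV.qt KE.rb40 3) = true := by decide +kernel

theorem e40_3 : KV.blk KV.R5 pv KC.E2.QT3 KC.E2.QT1 ex bd (KV.qt KE.rb40 3) = true := by
  decide +kernel

theorem k41_0 : KV.okL (KV.qt KE.rb41 0) = true := by decide +kernel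

theorem e41_0 : KV.blk KV.R5 pv KC.E2.QT3 KC.E2.QT1 ex bd (KV.qt KE.rb41 0) = true := by
  decide +kernel

theorem k41_1 : KV.okL (KV.qt KE.rb41 1) = true := by decide +kernel

theorem e41_1 : KV.blk KV.R5 pv KC.E2.QT3 KC.E2.QT1 ex bd (KV.qt KE.rb41 1) = true := by
  decide +kernel

theorem k41_2 : KV.okL (KV.qt KE.rb41 2) = true := by decide +kernel

theorem e41_2 : KV.blk KV.R5 pv KC.E2.QT3 KC.E2.QT1 ex bd (KV.qt KE.rb41 2) = true := by
  decide +kernel

theorem k41_3 : KV.okL (KV.qt KE.rb41 3) = true := by decide +kernel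

theorem e41_3 : KV.blk KV.R5 pv KC.E2.QT3 KC.E2.QT1 ex bd (KV.qt KE.rb41 3) = true := by
  decide +kernel

theorem k42_0 : KV.okL (KV.qt KE.rb42 0) = true := by decide +kernel

theorem e42_0 : KV.blk KV.R5 pv KC.E2.QT3 KC.E2.QT1 ex bd (KV.qt KE.rb42 0) = true := by
  decide +kernel

theorem k42_1 : KV.okL (KV.qt KE.rb42 1) = true := by decide +kernel

theorem e42_1 : KV.blk KV.R5 pv KC.E2.QT3 KC.E2.QT1 ex bd (KV.qt KE.rb42 1) = true := by
  decide +kernel

theorem k42_2 : KV.okL (KV.qt KE.rb42 2) = true := by decide +kernel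

theorem e42_2 : KV.blk KV.R5 pv KC.E2.QT3 KC.E2.QT1 ex bd (KV.qt KE.rb42 2) = true := by
  decide +kernel

theorem k42_3 : KV.okL (KV.qt KE.rb42 3) = true := by decide +kernel

theorem e42_3 : KV.blk KV.R5 pv KC.E2.QT3 KC.E2.QT1 ex bd (KV.qt KE.rb42 3) = true := by
  decide +kernel

theorem k43_0 : KV.okL (KV.qt KE.rb43 0) = true := by decide +kernel

theorem e43_0 : KV.blk KV.R5 pv KC.E2.QT3 KC.E2.QT1 ex bd (KV.qt KE.rb43 0) = true := by
  decide +kernel

theorem k43_1 : KV.okL (KV.qt KE.rb43 1) = true := by decide +kernel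

theorem e43_1 : KV.blk KV.R5 pv KC.E2.QT3 KC.E2.QT1 ex bd (KV.qt KE.rb43 1) = true := by
  decide +kernel

theorem k43_2 : KV.okL (KV.qt KE.rb43 2) = true := by decide +kernel

theorem e43_2 : KV.blk KV.R5 pv KC.E2.QT3 KC.E2.QT1 ex bd (KV.qt KE.rb43 2) = true := by
  decide +kernel

theorem k43_3 : KV.okL (KV.qt KE.rb43 3) = true := by decide +kernel

theorem e43_3 : KV.blk KV.R5 pv KC.E2.QT3 KC.E2.QT1 ex bd (KV.qt KE.rb43 3) = true := by
  decide +kernel

end KC.E2f
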