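import Pool.Agent.Helper13.KC.E2f.Fn
import Pool.Agent.Helper41.KV.EvD
import Pool.Agent.Helper41.KV.R5
import Pool.Agent.Helper41.KE.Reps

set_option autoImplicit false
set_option maxRecDepth 100000

/-!
Evaluation of four blocks.
-/

namespace KC.E2f

theorem k44_0 : KV.okL (KV.qt KE.rb44 0) = true := by decide +kernel

theorem e44_0 : KV.blk KV.R5 pv KC.E2.QT3 KC.E2.QT1 ex bd (KV.qt KE.rb44 0) = true := by
  decide +kernel

theorem k44_1 : KV.okL (KV.qt KE.rb44 1) = true := by decide +kernel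

theorem e44_1 : KV.blk KV.R5 pv KC.E2.QT3 KC.E2.QT1 ex bd (KV.qt KE.rb44 1) = true := by
  decide +kernel

theorem k44_2 : KV.okL (KV.qt KE.rb44 2) = true := by decide +kernel

theorem e44_2 : KV.blk KV.R5 pv KC.E2.QT3 KC.E2.QT1 ex bd (KV.qt KE.rb44 2) = true := by
  decide +kernel

theorem k44_3 : KV.okL (KV.qt KE.rb44 3) = true := by decide +kernel

theorem e44_3 : KV.blk KV.R5 pv KC.E2.QT3 KC.E2.QT1 ex bd (KV.qt KE.rb44 3) = true := by
  decide +kernel

theorem k45_0 : KV.okL (KV.qt KE.rb45 0) = true := by decide +kernel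

theorem e45_0 : KV.blk KV.R5 pv KC.E2.QT3 KC.E2.QT1 ex bd (KV.qt KE.rb45 0) = true := by
  decide +kernel

theorem k45_1 : KV.okL (KV.qt KE.rb45 1) = true := by decide +kernel

theorem e45_1 : KV.blk KV.R5 pv KC.E2.QT3 KC.E2.QT1 ex bd (KV.qt KE.rb45 1) = true := by
  decide +kernel

theorem k45_2 : KV.okL (KV.qt KE.rb45 2) = true := by decide +kernel

theorem e45_2 : KV.blk KV.R5 pv KC.E2.QT3 KC.E2.QT1 ex bd (KV.qt KE.rb45 2) = true := by
  decide +kernel

theorem k45_3 : KV.okL (KV.qt KE.rb45 3) = true := by decide +kernel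

theorem e45_3 : KV.blk KV.R5 pv KC.E2.QT3 KC.E2.QT1 ex bd (KV.qt KE.rb45 3) = true := by
  decide +kernel

theorem k46_0 : KV.okL (KV.qt KE.rb46 0) = true := by decide +kernel

theorem e46_0 : KV.blk KV.R5 pv KC.E2.QT3 KC.E2.QT1 ex bd (KV.qt KE.rb46 0) = true := by
  decide +kernel

theorem k46_1 : KV.okL (KV.qt KE.rb46 1) = true := by decide +kernel

theorem e46_1 : KV.blk KV.R5 pv KC.E2.QT3 KC.E2.QT1 ex bd (KV.qt KE.rb46 1) = true := by
  decide +kernel

theorem k46_2 : KV.okL (KV.qt KE.rb46 2) = true := by decide +kernel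

theorem e46_2 : KV.blk KV.R5 pv KC.E2.QT3 KC.E2.QT1 ex bd (KV.qt KE.rb46 2) = true := by
  decide +kernel

theorem k46_3 : KV.okL (KV.qt KE.rb46 3) = true := by decide +kernel

theorem e46_3 : KV.blk KV.R5 pv KC.E2.QT3 KC.E2.QT1 ex bd (KV.qt KE.rb46 3) = true := by
  decide +kernel

theorem k47_0 : KV.okL (KV.qt KE.rb47 0) = true := by decide +kernel

theorem e47_0 : KV.blk KV.R5 pv KC.E2.QT3 KC.E2.QT1 ex bd (KV.qt KE.rb47 0) = true := by
  decide +kernel

theorem k47_1 : KV.okL (KV.qt KE.rb47 1) = true := by decide +kernel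

theorem e47_1 : KV.blk KV.R5 pv KC.E2.QT3 KC.E2.QT1 ex bd (KV.qt KE.rb47 1) = true := by
  decide +kernel

theorem k47_2 : KV.okL (KV.qt KE.rb47 2) = true := by decide +kernel

theorem e47_2 : KV.blk KV.R5 pv KC.E2.QT3 KC.E2.QT1 ex bd (KV.qt KE.rb47 2) = true := by
  decide +kernel

theorem k47_3 : KV.okL (KV.qt KE.rb47 3) = true := by decide +kernel

theorem e47_3 : KV.blk KV.R5 pv KC.E2.QT3 KC.E2.QT1 ex bd (KV.qt KE.rb47 3) = true := by
  decide +kernel

end KC.E2f
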