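import Pool.Agent.Helper13.KC.E2f.Fn
import Pool.Agent.Helper41.KV.EvD
import Pool.Agent.Helper41.KV.R5
import Pool.Agent.Helper41.KE.Reps

set_option autoImplicit false
set_option maxRecDepth 100000

/-!
Evaluation of four blocks.
-/

namespace KC.E2f

theorem k48_0 : KV.okL (KV.qt KE.rb48 0) = true := by decide +kernel

theorem e48_0 : KV.blk KV.R5 pv KC.E2.QT3 KC.E2.QT1 ex bd (KV.qt KE.rb48 0) = true := by
  decide +kernel

theorem k48_1 : KV.okL (KV.qt KE.rb48 1) = true := by decide +kernel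

theorem e48_1 : KV.blk KV.R5 pv KC.E2.QT3 KC.E2.QT1 ex bd (KV.qt KE.rb48 1) = true := by
  decide +kernel

theorem k48_2 : KV.okL (KV.qt KE.rb48 2) = true := by decide +kernel

theorem e48_2 : KV.blk KV.R5 pv KC.E2.QT3 KC.E2.QT1 ex bd (KV.qt KE.rb48 2) = true := by
  decide +kernel

theorem k48_3 : KV.okL (KV.qt KE.rb48 3) = true := by decide +kernel

theorem e48_3 : KV.blk KV.R5 pv KC.E2.QT3 KC.E2.QT1 ex bd (KV.qt KE.rb48 3) = true := by
  decide +kernel

theorem k49_0 : KV.okL (KV.qt KE.rb49 0) = true := by decide +kernel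

theorem e49_0 : KV.blk KV.R5 pv KC.E2.QT3 KC.E2.QT1 ex bd (KV.qt KE.rb49 0) = true := by
  decide +kernel

theorem k49_1 : KV.okL (KV.qt KE.rb49 1) = true := by decide +kernel

theorem e49_1 : KV.blk KV.R5 pv KC.E2.QT3 KC.E2.QT1 ex bd (KV.qt KE.rb49 1) = true := by
  decide +kernel

theorem k49_2 : KV.okL (KV.qt KE.rb49 2) = true := by decide +kernel

theorem e49_2 : KV.blk KV.R5 pv KC.E2.QT3 KC.E2.QT1 ex bd (KV.qt KE.rb49 2) = true := by
  decide +kernel

theorem k49_3 : KV.okL (KV.qt KE.rb49 3) = true := by decide +kernel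

theorem e49_3 : KV.blk KV.R5 pv KC.E2.QT3 KC.E2.QT1 ex bd (KV.qt KE.rb49 3) = true := by
  decide +kernel

theorem k50_0 : KV.okL (KV.qt KE.rb50 0) = true := by decide +kernel

theorem e50_0 : KV.blk KV.R5 pv KC.E2.QT3 KC.E2.QT1 ex bd (KV.qt KE.rb50 0) = true := by
  decide +kernel

theorem k50_1 : KV.okL (KV.qt KE.rb50 1) = true := by decide +kernel

theorem e50_1 : KV.blk KV.R5 pv KC.E2.QT3 KC.E2.QT1 ex bd (KV.qt KE.rb50 1) = true := by
  decide +kernel

theorem k50_2 : KV.okL (KV.qt KE.rb50 2) = true := by decide +kernel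

theorem e50_2 : KV.blk KV.R5 pv KC.E2.QT3 KC.E2.QT1 ex bd (KV.qt KE.rb50 2) = true := by
  decide +kernel

theorem k50_3 : KV.okL (KV.qt KE.rb50 3) = true := by decide +kernel

theorem e50_3 : KV.blk KV.R5 pv KC.E2.QT3 KC.E2.QT1 ex bd (KV.qt KE.rb50 3) = true := by
  decide +kernel

theorem k51_0 : KV.okL (KV.qt KE.rb51 0) = true := by decide +kernel

theorem e51_0 : KV.blk KV.R5 pv KC.E2.QT3 KC.E2.QT1 ex bd (KV.qt KE.rb51 0) = true := by
  decide +kernel

theorem k51_1 : KV.okL (KV.qt KE.rb51 1) = true := by decide +kernel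

theorem e51_1 : KV.blk KV.R5 pv KC.E2.QT3 KC.E2.QT1 ex bd (KV.qt KE.rb51 1) = true := by
  decide +kernel

theorem k51_2 : KV.okL (KV.qt KE.rb51 2) = true := by decide +kernel

theorem e51_2 : KV.blk KV.R5 pv KC.E2.QT3 KC.E2.QT1 ex bd (KV.qt KE.rb51 2) = true := by
  decide +kernel

theorem k51_3 : KV.okL (KV.qt KE.rb51 3) = true := by decide +kernel

theorem e51_3 : KV.blk KV.R5 pv KC.E2.QT3 KC.E2.QT1 ex bd (KV.qt KE.rb51 3) = true := by
  decide +kernel

end KC.E2f
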