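import Pool.Agent.Helper13.KC.E2f.Fn
import Pool.Agent.Helper41.KV.EvD
import Pool.Agent.Helper41.KV.R5
import Pool.Agent.Helper41.KE.Reps

set_option autoImplicit false
set_option maxRecDepth 100000

/-!
Evaluation of four blocks.
-/

namespace KC.E2f

theorem k52_0 : KV.okL (KV.qt KE.rb52 0) = true := by decide +kernel

theorem e52_0 : KV.blk KV.R5 pv KC.E2.QT3 KC.E2.QT1 ex bd (KV.qt KE.rb52 0) = true := by
  decide +kernel

theorem k52_1 : KV.okL (KV.qt KE.rb52 1) = true := by decide +kernel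

theorem e52_1 : KV.blk KV.R5 pv KC.E2.QT3 KC.E2.QT1 ex bd (KV.qt KE.rb52 1) = true := by
  decide +kernel

theorem k52_2 : KV.okL (KV.qt KE.rb52 2) = true := by decide +kernel

theorem e52_2 : KV.blk KV.R5 pv KC.E2.QT3 KC.E2.QT1 ex bd (KV.qt KE.rb52 2) = true := by
  decide +kernel

theorem k52_3 : KV.okL (KV.qt KE.rb52 3) = true := by decide +kernel

theorem e52_3 : KV.blk KV.R5 pv KC.E2.QT3 KC.E2.QT1 ex bd (KV.qt KE.rb52 3) = true := by
  decide +kernel

theorem k53_0 : KV.okL (KV.qt KE.rb53 0) = true := by decide +kernel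

theorem e53_0 : KV.blk KV.R5 pv KC.E2.QT3 KC.E2.QT1 ex bd (KV.qt KE.rb53 0) = true := by
  decide +kernel

theorem k53_1 : KV.okL (KV.qt KE.rb53 1) = true := by decide +kernel

theorem e53_1 : KV.blk KV.R5 pv KC.E2.QT3 KC.E2.QT1 ex bd (KV.qt KE.rb53 1) = true := by
  decide +kernel

theorem k53_2 : KV.okL (KV.qt KE.rb53 2) = true := by decide +kernel

theorem e53_2 : KV.blk KV.R5 pv KC.E2.QT3 KC.E2.QT1 ex bd (KV.qt KE.rb53 2) = true := by
  decide +kernel

theorem k53_3 : KV.okL (KV.qt KE.rb53 3) = true := by decide +kernel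

theorem e53_3 : KV.blk KV.R5 pv KC.E2.QT3 KC.E2.QT1 ex bd (KV.qt KE.rb53 3) = true := by
  decide +kernel

theorem k54_0 : KV.okL (KV.qt KE.rb54 0) = true := by decide +kernel

theorem e54_0 : KV.blk KV.R5 pv KC.E2.QT3 KC.E2.QT1 ex bd (KV.qt KE.rb54 0) = true := by
  decide +kernel

theorem k54_1 : KV.okL (KV.qt KE.rb54 1) = true := by decide +kernel

theorem e54_1 : KV.blk KV.R5 pv KC.E2.QT3 KC.E2.QT1 ex bd (KV.qt KE.rb54 1) = true := by
  decide +kernel

theorem k54_2 : KV.okL (KV.qt KE.rb54 2) = true := by decide +kernel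

theorem e54_2 : KV.blk KV.R5 pv KC.E2.QT3 KC.E2.QT1 ex bd (KV.qt KE.rb54 2) = true := by
  decide +kernel

theorem k54_3 : KV.okL (KV.qt KE.rb54 3) = true := by decide +kernel

theorem e54_3 : KV.blk KV.R5 pv KC.E2.QT3 KC.E2.QT1 ex bd (KV.qt KE.rb54 3) = true := by
  decide +kernel

theorem k55_0 : KV.okL (KV.qt KE.rb55 0) = true := by decide +kernel

theorem e55_0 : KV.blk KV.R5 pv KC.E2.QT3 KC.E2.QT1 ex bd (KV.qt KE.rb55 0) = true := by
  decide +kernel

theorem k55_1 : KV.okL (KV.qt KE.rb55 1) = true := by decide +kernel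

theorem e55_1 : KV.blk KV.R5 pv KC.E2.QT3 KC.E2.QT1 ex bd (KV.qt KE.rb55 1) = true := by
  decide +kernel

theorem k55_2 : KV.okL (KV.qt KE.rb55 2) = true := by decide +kernel

theorem e55_2 : KV.blk KV.R5 pv KC.E2.QT3 KC.E2.QT1 ex bd (KV.qt KE.rb55 2) = true := by
  decide +kernel

theorem k55_3 : KV.okL (KV.qt KE.rb55 3) = true := by decide +kernel

theorem e55_3 : KV.blk KV.R5 pv KC.E2.QT3 KC.E2.QT1 ex bd (KV.qt KE.rb55 3) = true := by
  decide +kernel

end KC.E2f
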