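import Pool.Agent.Helper13.KC.E2f.Fn
import Pool.Agent.Helper41.KV.EvD
import Pool.Agent.Helper41.KV.R5
import Pool.Agent.Helper41.KE.Reps

set_option autoImplicit false
set_option maxRecDepth 100000

/-!
Evaluation of four blocks.
-/

namespace KC.E2f

theorem k56_0 : KV.okL (KV.qt KE.rb56 0) = true := by decide +kernel

theorem e56_0 : KV.blk KV.R5 pv KC.E2.QT3 KC.E2.QT1 ex bd (KV.qt KE.rb56 0) = true := by
  decide +kernel

theorem k56_1 : KV.okL (KV.qt KE.rb56 1) = true := by decide +kernel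

theorem e56_1 : KV.blk KV.R5 pv KC.E2.QT3 KC.E2.QT1 ex bd (KV.qt KE.rb56 1) = true := by
  decide +kernel

theorem k56_2 : KV.okL (KV.qt KE.rb56 2) = true := by decide +kernel

theorem e56_2 : KV.blk KV.R5 pv KC.E2.QT3 KC.E2.QT1 ex bd (KV.qt KE.rb56 2) = true := by
  decide +kernel

theorem k56_3 : KV.okL (KV.qt KE.rb56 3) = true := by decide +kernel

theorem e56_3 : KV.blk KV.R5 pv KC.E2.QT3 KC.E2.QT1 ex bd (KV.qt KE.rb56 3) = true := by
  decide +kernel

theorem k57_0 : KV.okL (KV.qt KE.rb57 0) = true := by decide +kernel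

theorem e57_0 : KV.blk KV.R5 pv KC.E2.QT3 KC.E2.QT1 ex bd (KV.qt KE.rb57 0) = true := by
  decide +kernel

theorem k57_1 : KV.okL (KV.qt KE.rb57 1) = true := by decide +kernel

theorem e57_1 : KV.blk KV.R5 pv KC.E2.QT3 KC.E2.QT1 ex bd (KV.qt KE.rb57 1) = true := by
  decide +kernel

theorem k57_2 : KV.okL (KV.qt KE.rb57 2) = true := by decide +kernel

theorem e57_2 : KV.blk KV.R5 pv KC.E2.QT3 KC.E2.QT1 ex bd (KV.qt KE.rb57 2) = true := by
  decide +kernel

theorem k57_3 : KV.okL (KV.qt KE.rb57 3) = true := by decide +kernel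

theorem e57_3 : KV.blk KV.R5 pv KC.E2.QT3 KC.E2.QT1 ex bd (KV.qt KE.rb57 3) = true := by
  decide +kernel

theorem k58_0 : KV.okL (KV.qt KE.rb58 0) = true := by decide +kernel

theorem e58_0 : KV.blk KV.R5 pv KC.E2.QT3 KC.E2.QT1 ex bd (KV.qt KE.rb58 0) = true := by
  decide +kernel

theorem k58_1 : KV.okL (KV.qt KE.rb58 1) = true := by decide +kernel

theorem e58_1 : KV.blk KV.R5 pv KC.E2.QT3 KC.E2.QT1 ex bd (KV.qt KE.rb58 1) = true := by
  decide +kernel

theorem k58_2 : KV.okL (KV.qt KE.rb58 2) = true := by decide +kernel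

theorem e58_2 : KV.blk KV.R5 pv KC.E2.QT3 KC.E2.QT1 ex bd (KV.qt KE.rb58 2) = true := by
  decide +kernel

theorem k58_3 : KV.okL (KV.qt KE.rb58 3) = true := by decide +kernel

theorem e58_3 : KV.blk KV.R5 pv KC.E2.QT3 KC.E2.QT1 ex bd (KV.qt KE.rb58 3) = true := by
  decide +kernel

theorem k59_0 : KV.okL (KV.qt KE.rb59 0) = true := by decide +kernel

theorem e59_0 : KV.blk KV.R5 pv KC.E2.QT3 KC.E2.QT1 ex bd (KV.qt KE.rb59 0) = true := by
  decide +kernel

theorem k59_1 : KV.okL (KV.qt KE.rb59 1) = true := by decide +kernel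

theorem e59_1 : KV.blk KV.R5 pv KC.E2.QT3 KC.E2.QT1 ex bd (KV.qt KE.rb59 1) = true := by
  decide +kernel

theorem k59_2 : KV.okL (KV.qt KE.rb59 2) = true := by decide +kernel

theorem e59_2 : KV.blk KV.R5 pv KC.E2.QT3 KC.E2.QT1 ex bd (KV.qt KE.rb59 2) = true := by
  decide +kernel

theorem k59_3 : KV.okL (KV.qt KE.rb59 3) = true := by decide +kernel

theorem e59_3 : KV.blk KV.R5 pv KC.E2.QT3 KC.E2.QT1 ex bd (KV.qt KE.rb59 3) = true := by
  decide +kernel

end KC.E2f
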