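import Pool.Agent.Helper13.KC.E2f.Fn
import Pool.Agent.Helper41.KV.EvD
import Pool.Agent.Helper41.KV.R5
import Pool.Agent.Helper41.KE.Reps

set_option autoImplicit false
set_option maxRecDepth 100000

/-!
Evaluation of four blocks.
-/

namespace KC.E2f

theorem k60_0 : KV.okL (KV.qt KE.rb60 0) = true := by decide +kernel

theorem e60_0 : KV.blk KV.R5 pv KC.E2.QT3 KC.E2.QT1 ex bd (KV.qt KE.rb60 0) = true := by
  decide +kernel

theorem k60_1 : KV.okL (KV.qt KE.rb60 1) = true := by decide +kernel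

theorem e60_1 : KV.blk KV.R5 pv KC.E2.QT3 KC.E2.QT1 ex bd (KV.qt KE.rb60 1) = true := by
  decide +kernel

theorem k60_2 : KV.okL (KV.qt KE.rb60 2) = true := by decide +kernel

theorem e60_2 : KV.blk KV.R5 pv KC.E2.QT3 KC.E2.QT1 ex bd (KV.qt KE.rb60 2) = true := by
  decide +kernel

theorem k60_3 : KV.okL (KV.qt KE.rb60 3) = true := by decide +kernel

theorem e60_3 : KV.blk KV.R5 pv KC.E2.QT3 KC.E2.QT1 ex bd (KV.qt KE.rb60 3) = true := by
  decide +kernel

theorem k61_0 : KV.okL (KV.qt KE.rb61 0) = true := by decide +kernel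

theorem e61_0 : KV.blk KV.R5 pv KC.E2.QT3 KC.E2.QT1 ex bd (KV.qt KE.rb61 0) = true := by
  decide +kernel

theorem k61_1 : KV.okL (KV.qt KE.rb61 1) = true := by decide +kernel

theorem e61_1 : KV.blk KV.R5 pv KC.E2.QT3 KC.E2.QT1 ex bd (KV.qt KE.rb61 1) = true := by
  decide +kernel

theorem k61_2 : KV.okL (KV.qt KE.rb61 2) = true := by decide +kernel

theorem e61_2 : KV.blk KV.R5 pv KC.E2.QT3 KC.E2.QT1 ex bd (KV.qt KE.rb61 2) = true := by
  decide +kernel

theorem k61_3 : KV.okL (KV.qt KE.rb61 3) = true := by decide +kernel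

theorem e61_3 : KV.blk KV.R5 pv KC.E2.QT3 KC.E2.QT1 ex bd (KV.qt KE.rb61 3) = true := by
  decide +kernel

theorem k62_0 : KV.okL (KV.qt KE.rb62 0) = true := by decide +kernel

theorem e62_0 : KV.blk KV.R5 pv KC.E2.QT3 KC.E2.QT1 ex bd (KV.qt KE.rb62 0) = true := by
  decide +kernel

theorem k62_1 : KV.okL (KV.qt KE.rb62 1) = true := by decide +kernel

theorem e62_1 : KV.blk KV.R5 pv KC.E2.QT3 KC.E2.QT1 ex bd (KV.qt KE.rb62 1) = true := by
  decide +kernel

theorem k62_2 : KV.okL (KV.qt KE.rb62 2) = true := by decide +kernel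

theorem e62_2 : KV.blk KV.R5 pv KC.E2.QT3 KC.E2.QT1 ex bd (KV.qt KE.rb62 2) = true := by
  decide +kernel

theorem k62_3 : KV.okL (KV.qt KE.rb62 3) = true := by decide +kernel

theorem e62_3 : KV.blk KV.R5 pv KC.E2.QT3 KC.E2.QT1 ex bd (KV.qt KE.rb62 3) = true := by
  decide +kernel

theorem k63_0 : KV.okL (KV.qt KE.rb63 0) = true := by decide +kernel

theorem e63_0 : KV.blk KV.R5 pv KC.E2.QT3 KC.E2.QT1 ex bd (KV.qt KE.rb63 0) = true := by
  decide +kernel

theorem k63_1 : KV.okL (KV.qt KE.rb63 1) = true := by decide +kernel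

theorem e63_1 : KV.blk KV.R5 pv KC.E2.QT3 KC.E2.QT1 ex bd (KV.qt KE.rb63 1) = true := by
  decide +kernel

theorem k63_2 : KV.okL (KV.qt KE.rb63 2) = true := by decide +kernel

theorem e63_2 : KV.blk KV.R5 pv KC.E2.QT3 KC.E2.QT1 ex bd (KV.qt KE.rb63 2) = true := by
  decide +kernel

theorem k63_3 : KV.okL (KV.qt KE.rb63 3) = true := by decide +kernel

theorem e63_3 : KV.blk KV.R5 pv KC.E2.QT3 KC.E2.QT1 ex bd (KV.qt KE.rb63 3) = true := by
  decide +kernel

end KC.E2f
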