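import Pool.Agent.Helper13.KC.E2f.Fn
import Pool.Agent.Helper41.KV.EvD
import Pool.Agent.Helper41.KV.R5
import Pool.Agent.Helper41.KE.Reps

set_option autoImplicit false
set_option maxRecDepth 100000

/-!
Evaluation of four blocks.
-/

namespace KC.E2f

theorem k8_0 : KV.okL (KV.qt KE.rb8 0) = true := by decide +kernel

theorem e8_0 : KV.blk KV.R5 pv KC.E2.QT3 KC.E2.QT1 ex bd (KV.qt KE.rb8 0) = true := by
  decide +kernel

theorem k8_1 : KV.okL (KV.qt KE.rb8 1) = true := by decide +kernel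

theorem e8_1 : KV.blk KV.R5 pv KC.E2.QT3 KC.E2.QT1 ex bd (KV.qt KE.rb8 1) = true := by
  decide +kernel

theorem k8_2 : KV.okL (KV.qt KE.rb8 2) = true := by decide +kernel

theorem e8_2 : KV.blk KV.R5 pv KC.E2.QT3 KC.E2.QT1 ex bd (KV.qt KE.rb8 2) = true := by
  decide +kernel

theorem k8_3 : KV.okL (KV.qt KE.rb8 3) = true := by decide +kernel

theorem e8_3 : KV.blk KV.R5 pv KC.E2.QT3 KC.E2.QT1 ex bd (KV.qt KE.rb8 3) = true := by
  decide +kernel

theorem k9_0 : KV.okL (KV.qt KE.rb9 0) = true := by decide +kernel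

theorem e9_0 : KV.blk KV.R5 pv KC.E2.QT3 KC.E2.QT1 ex bd (KV.qt KE.rb9 0) = true := by
  decide +kernel

theorem k9_1 : KV.okL (KV.qt KE.rb9 1) = true := by decide +kernel

theorem e9_1 : KV.blk KV.R5 pv KC.E2.QT3 KC.E2.QT1 ex bd (KV.qt KE.rb9 1) = true := by
  decide +kernel

theorem k9_2 : KV.okL (KV.qt KE.rb9 2) = true := by decide +kernel

theorem e9_2 : KV.blk KV.R5 pv KC.E2.QT3 KC.E2.QT1 ex bd (KV.qt KE.rb9 2) = true := by
  decide +kernel

theorem k9_3 : KV.okL (KV.qt KE.rb9 3) = true := by decide +kernel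

theorem e9_3 : KV.blk KV.R5 pv KC.E2.QT3 KC.E2.QT1 ex bd (KV.qt KE.rb9 3) = true := by
  decide +kernel

theorem k10_0 : KV.okL (KV.qt KE.rb10 0) = true := by decide +kernel

theorem e10_0 : KV.blk KV.R5 pv KC.E2.QT3 KC.E2.QT1 ex bd (KV.qt KE.rb10 0) = true := by
  decide +kernel

theorem k10_1 : KV.okL (KV.qt KE.rb10 1) = true := by decide +kernel

theorem e10_1 : KV.blk KV.R5 pv KC.E2.QT3 KC.E2.QT1 ex bd (KV.qt KE.rb10 1) = true := by
  decide +kernel

theorem k10_2 : KV.okL (KV.qt KE.rb10 2) = true := by decide +kernel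

theorem e10_2 : KV.blk KV.R5 pv KC.E2.QT3 KC.E2.QT1 ex bd (KV.qt KE.rb10 2) = true := by
  decide +kernel

theorem k10_3 : KV.okL (KV.qt KE.rb10 3) = true := by decide +kernel

theorem e10_3 : KV.blk KV.R5 pv KC.E2.QT3 KC.E2.QT1 ex bd (KV.qt KE.rb10 3) = true := by
  decide +kernel

theorem k11_0 : KV.okL (KV.qt KE.rb11 0) = true := by decide +kernel

theorem e11_0 : KV.blk KV.R5 pv KC.E2.QT3 KC.E2.QT1 ex bd (KV.qt KE.rb11 0) = true := by
  decide +kernel

theorem k11_1 : KV.okL (KV.qt KE.rb11 1) = true := by decide +kernel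

theorem e11_1 : KV.blk KV.R5 pv KC.E2.QT3 KC.E2.QT1 ex bd (KV.qt KE.rb11 1) = true := by
  decide +kernel

theorem k11_2 : KV.okL (KV.qt KE.rb11 2) = true := by decide +kernel

theorem e11_2 : KV.blk KV.R5 pv KC.E2.QT3 KC.E2.QT1 ex bd (KV.qt KE.rb11 2) = true := by
  decide +kernel

theorem k11_3 : KV.okL (KV.qt KE.rb11 3) = true := by decide +kernel

theorem e11_3 : KV.blk KV.R5 pv KC.E2.QT3 KC.E2.QT1 ex bd (KV.qt KE.rb11 3) = true := by
  decide +kernel

end KC.E2f
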