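import Pool.Agent.Helper13.KC.E2f.Fn
import Pool.Agent.Helper41.KV.EvD
import Pool.Agent.Helper41.KV.R5
import Pool.Agent.Helper41.KE.Reps

set_option autoImplicit false
set_option maxRecDepth 100000

/-!
Evaluation of four blocks.
-/

namespace KC.E2f

theorem k12_0 : KV.okL (KV.qt KE.rb12 0) = true := by decide +kernel

theorem e12_0 : KV.blk KV.R5 pv KC.E2.QT3 KC.E2.QT1 ex bd (KV.qt KE.rb12 0) = true := by
  decide +kernel

theorem k12_1 : KV.okL (KV.qt KE.rb12 1) = true := by decide +kernel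

theorem e12_1 : KV.blk KV.R5 pv KC.E2.QT3 KC.E2.QT1 ex bd (KV.qt KE.rb12 1) = true := by
  decide +kernel

theorem k12_2 : KV.okL (KV.qt KE.rb12 2) = true := by decide +kernel

theorem e12_2 : KV.blk KV.R5 pv KC.E2.QT3 KC.E2.QT1 ex bd (KV.qt KE.rb12 2) = true := by
  decide +kernel

theorem k12_3 : KV.okL (KV.qt KE.rb12 3) = true := by decide +kernel

theorem e12_3 : KV.blk KV.R5 pv KC.E2.QT3 KC.E2.QT1 ex bd (KV.qt KE.rb12 3) = true := by
  decide +kernel

theorem k13_0 : KV.okL (KV.qt KE.rb13 0) = true := by decide +kernel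

theorem e13_0 : KV.blk KV.R5 pv KC.E2.QT3 KC.E2.QT1 ex bd (KV.qt KE.rb13 0) = true := by
  decide +kernel

theorem k13_1 : KV.okL (KV.qt KE.rb13 1) = true := by decide +kernel

theorem e13_1 : KV.blk KV.R5 pv KC.E2.QT3 KC.E2.QT1 ex bd (KV.qt KE.rb13 1) = true := by
  decide +kernel

theorem k13_2 : KV.okL (KV.qt KE.rb13 2) = true := by decide +kernel

theorem e13_2 : KV.blk KV.R5 pv KC.E2.QT3 KC.E2.QT1 ex bd (KV.qt KE.rb13 2) = true := by
  decide +kernel

theorem k13_3 : KV.okL (KV.qt KE.rb13 3) = true := by decide +kernel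

theorem e13_3 : KV.blk KV.R5 pv KC.E2.QT3 KC.E2.QT1 ex bd (KV.qt KE.rb13 3) = true := by
  decide +kernel

theorem k14_0 : KV.okL (KV.qt KE.rb14 0) = true := by decide +kernel

theorem e14_0 : KV.blk KV.R5 pv KC.E2.QT3 KC.E2.QT1 ex bd (KV.qt KE.rb14 0) = true := by
  decide +kernel

theorem k14_1 : KV.okL (KV.qt KE.rb14 1) = true := by decide +kernel

theorem e14_1 : KV.blk KV.R5 pv KC.E2.QT3 KC.E2.QT1 ex bd (KV.qt KE.rb14 1) = true := by
  decide +kernel

theorem k14_2 : KV.okL (KV.qt KE.rb14 2) = true := by decide +kernel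

theorem e14_2 : KV.blk KV.R5 pv KC.E2.QT3 KC.E2.QT1 ex bd (KV.qt KE.rb14 2) = true := by
  decide +kernel

theorem k14_3 : KV.okL (KV.qt KE.rb14 3) = true := by decide +kernel

theorem e14_3 : KV.blk KV.R5 pv KC.E2.QT3 KC.E2.QT1 ex bd (KV.qt KE.rb14 3) = true := by
  decide +kernel

theorem k15_0 : KV.okL (KV.qt KE.rb15 0) = true := by decide +kernel

theorem e15_0 : KV.blk KV.R5 pv KC.E2.QT3 KC.E2.QT1 ex bd (KV.qt KE.rb15 0) = true := by
  decide +kernel

theorem k15_1 : KV.okL (KV.qt KE.rb15 1) = true := by decide +kernel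

theorem e15_1 : KV.blk KV.R5 pv KC.E2.QT3 KC.E2.QT1 ex bd (KV.qt KE.rb15 1) = true := by
  decide +kernel

theorem k15_2 : KV.okL (KV.qt KE.rb15 2) = true := by decide +kernel

theorem e15_2 : KV.blk KV.R5 pv KC.E2.QT3 KC.E2.QT1 ex bd (KV.qt KE.rb15 2) = true := by
  decide +kernel

theorem k15_3 : KV.okL (KV.qt KE.rb15 3) = true := by decide +kernel

theorem e15_3 : KV.blk KV.R5 pv KC.E2.QT3 KC.E2.QT1 ex bd (KV.qt KE.rb15 3) = true := by
  decide +kernel

end KC.E2f
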