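import Pool.Agent.Helper13.KC.E2f.Fn
import Pool.Agent.Helper41.KV.EvD
import Pool.Agent.Helper41.KV.R5
import Pool.Agent.Helper41.KE.Reps

set_option autoImplicit false
set_option maxRecDepth 100000

/-!
Evaluation of four blocks.
-/

namespace KC.E2f

theorem k16_0 : KV.okL (KV.qt KE.rb16 0) = true := by decide +kernel

theorem e16_0 : KV.blk KV.R5 pv KC.E2.QT3 KC.E2.QT1 ex bd (KV.qt KE.rb16 0) = true := by
  decide +kernel

theorem k16_1 : KV.okL (KV.qt KE.rb16 1) = true := by decide +kernel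

theorem e16_1 : KV.blk KV.R5 pv KC.E2.QT3 KC.E2.QT1 ex bd (KV.qt KE.rb16 1) = true := by
  decide +kernel

theorem k16_2 : KV.okL (KV.qt KE.rb16 2) = true := by decide +kernel

theorem e16_2 : KV.blk KV.R5 pv KC.E2.QT3 KC.E2.QT1 ex bd (KV.qt KE.rb16 2) = true := by
  decide +kernel

theorem k16_3 : KV.okL (KV.qt KE.rb16 3) = true := by decide +kernel

theorem e16_3 : KV.blk KV.R5 pv KC.E2.QT3 KC.E2.QT1 ex bd (KV.qt KE.rb16 3) = true := by
  decide +kernel

theorem k17_0 : KV.okL (KV.qt KE.rb17 0) = true := by decide +kernel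

theorem e17_0 : KV.blk KV.R5 pv KC.E2.QT3 KC.E2.QT1 ex bd (KV.qt KE.rb17 0) = true := by
  decide +kernel

theorem k17_1 : KV.okL (KV.qt KE.rb17 1) = true := by decide +kernel

theorem e17_1 : KV.blk KV.R5 pv KC.E2.QT3 KC.E2.QT1 ex bd (KV.qt KE.rb17 1) = true := by
  decide +kernel

theorem k17_2 : KV.okL (KV.qt KE.rb17 2) = true := by decide +kernel

theorem e17_2 : KV.blk KV.R5 pv KC.E2.QT3 KC.E2.QT1 ex bd (KV.qt KE.rb17 2) = true := by
  decide +kernel

theorem k17_3 : KV.okL (KV.qt KE.rb17 3) = true := by decide +kernel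

theorem e17_3 : KV.blk KV.R5 pv KC.E2.QT3 KC.E2.QT1 ex bd (KV.qt KE.rb17 3) = true := by
  decide +kernel

theorem k18_0 : KV.okL (KV.qt KE.rb18 0) = true := by decide +kernel

theorem e18_0 : KV.blk KV.R5 pv KC.E2.QT3 KC.E2.QT1 ex bd (KV.qt KE.rb18 0) = true := by
  decide +kernel

theorem k18_1 : KV.okL (KV.qt KE.rb18 1) = true := by decide +kernel

theorem e18_1 : KV.blk KV.R5 pv KC.E2.QT3 KC.E2.QT1 ex bd (KV.qt KE.rb18 1) = true := by
  decide +kernel

theorem k18_2 : KV.okL (KV.qt KE.rb18 2) = true := by decide +kernel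

theorem e18_2 : KV.blk KV.R5 pv KC.E2.QT3 KC.E2.QT1 ex bd (KV.qt KE.rb18 2) = true := by
  decide +kernel

theorem k18_3 : KV.okL (KV.qt KE.rb18 3) = true := by decide +kernel

theorem e18_3 : KV.blk KV.R5 pv KC.E2.QT3 KC.E2.QT1 ex bd (KV.qt KE.rb18 3) = true := by
  decide +kernel

theorem k19_0 : KV.okL (KV.qt KE.rb19 0) = true := by decide +kernel

theorem e19_0 : KV.blk KV.R5 pv KC.E2.QT3 KC.E2.QT1 ex bd (KV.qt KE.rb19 0) = true := by
  decide +kernel

theorem k19_1 : KV.okL (KV.qt KE.rb19 1) = true := by decide +kernel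

theorem e19_1 : KV.blk KV.R5 pv KC.E2.QT3 KC.E2.QT1 ex bd (KV.qt KE.rb19 1) = true := by
  decide +kernel

theorem k19_2 : KV.okL (KV.qt KE.rb19 2) = true := by decide +kernel

theorem e19_2 : KV.blk KV.R5 pv KC.E2.QT3 KC.E2.QT1 ex bd (KV.qt KE.rb19 2) = true := by
  decide +kernel

theorem k19_3 : KV.okL (KV.qt KE.rb19 3) = true := by decide +kernel

theorem e19_3 : KV.blk KV.R5 pv KC.E2.QT3 KC.E2.QT1 ex bd (KV.qt KE.rb19 3) = true := by
  decide +kernel

end KC.E2f
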