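import Pool.Agent.Helper13.KC.E2f.Fn
import Pool.Agent.Helper41.KV.EvD
import Pool.Agent.Helper41.KV.R5
import Pool.Agent.Helper41.KE.Reps

set_option autoImplicit false
set_option maxRecDepth 100000

/-!
Evaluation of four blocks.
-/

namespace KC.E2f

theorem k20_0 : KV.okL (KV.qt KE.rb20 0) = true := by decide +kernel

theorem e20_0 : KV.blk KV.R5 pv KC.E2.QT3 KC.E2.QT1 ex bd (KV.qt KE.rb20 0) = true := by
  decide +kernel

theorem k20_1 : KV.okL (KV.qt KE.rb20 1) = true := by decide +kernel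

theorem e20_1 : KV.blk KV.R5 pv KC.E2.QT3 KC.E2.QT1 ex bd (KV.qt KE.rb20 1) = true := by
  decide +kernel

theorem k20_2 : KV.okL (KV.qt KE.rb20 2) = true := by decide +kernel

theorem e20_2 : KV.blk KV.R5 pv KC.E2.QT3 KC.E2.QT1 ex bd (KV.qt KE.rb20 2) = true := by
  decide +kernel

theorem k20_3 : KV.okL (KV.qt KE.rb20 3) = true := by decide +kernel

theorem e20_3 : KV.blk KV.R5 pv KC.E2.QT3 KC.E2.QT1 ex bd (KV.qt KE.rb20 3) = true := by
  decide +kernel

theorem k21_0 : KV.okL (KV.qt KE.rb21 0) = true := by decide +kernel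

theorem e21_0 : KV.blk KV.R5 pv KC.E2.QT3 KC.E2.QT1 ex bd (KV.qt KE.rb21 0) = true := by
  decide +kernel

theorem k21_1 : KV.okL (KV.qt KE.rb21 1) = true := by decide +kernel

theorem e21_1 : KV.blk KV.R5 pv KC.E2.QT3 KC.E2.QT1 ex bd (KV.qt KE.rb21 1) = true := by
  decide +kernel

theorem k21_2 : KV.okL (KV.qt KE.rb21 2) = true := by decide +kernel

theorem e21_2 : KV.blk KV.R5 pv KC.E2.QT3 KC.E2.QT1 ex bd (KV.qt KE.rb21 2) = true := by
  decide +kernel

theorem k21_3 : KV.okL (KV.qt KE.rb21 3) = true := by decide +kernel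

theorem e21_3 : KV.blk KV.R5 pv KC.E2.QT3 KC.E2.QT1 ex bd (KV.qt KE.rb21 3) = true := by
  decide +kernel

theorem k22_0 : KV.okL (KV.qt KE.rb22 0) = true := by decide +kernel

theorem e22_0 : KV.blk KV.R5 pv KC.E2.QT3 KC.E2.QT1 ex bd (KV.qt KE.rb22 0) = true := by
  decide +kernel

theorem k22_1 : KV.okL (KV.qt KE.rb22 1) = true := by decide +kernel

theorem e22_1 : KV.blk KV.R5 pv KC.E2.QT3 KC.E2.QT1 ex bd (KV.qt KE.rb22 1) = true := by
  decide +kernel

theorem k22_2 : KV.okL (KV.qt KE.rb22 2) = true := by decide +kernel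

theorem e22_2 : KV.blk KV.R5 pv KC.E2.QT3 KC.E2.QT1 ex bd (KV.qt KE.rb22 2) = true := by
  decide +kernel

theorem k22_3 : KV.okL (KV.qt KE.rb22 3) = true := by decide +kernel

theorem e22_3 : KV.blk KV.R5 pv KC.E2.QT3 KC.E2.QT1 ex bd (KV.qt KE.rb22 3) = true := by
  decide +kernel

theorem k23_0 : KV.okL (KV.qt KE.rb23 0) = true := by decide +kernel

theorem e23_0 : KV.blk KV.R5 pv KC.E2.QT3 KC.E2.QT1 ex bd (KV.qt KE.rb23 0) = true := by
  decide +kernel

theorem k23_1 : KV.okL (KV.qt KE.rb23 1) = true := by decide +kernel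

theorem e23_1 : KV.blk KV.R5 pv KC.E2.QT3 KC.E2.QT1 ex bd (KV.qt KE.rb23 1) = true := by
  decide +kernel

theorem k23_2 : KV.okL (KV.qt KE.rb23 2) = true := by decide +kernel

theorem e23_2 : KV.blk KV.R5 pv KC.E2.QT3 KC.E2.QT1 ex bd (KV.qt KE.rb23 2) = true := by
  decide +kernel

theorem k23_3 : KV.okL (KV.qt KE.rb23 3) = true := by decide +kernel

theorem e23_3 : KV.blk KV.R5 pv KC.E2.QT3 KC.E2.QT1 ex bd (KV.qt KE.rb23 3) = true := by
  decide +kernel

end KC.E2f
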