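import Pool.Agent.Helper13.KC.E2f.Fn
import Pool.Agent.Helper41.KV.EvD
import Pool.Agent.Helper41.KV.R5
import Pool.Agent.Helper41.KE.Reps

set_option autoImplicit false
set_option maxRecDepth 100000

/-!
Evaluation of four blocks.
-/

namespace KC.E2f

theorem k24_0 : KV.okL (KV.qt KE.rb24 0) = true := by decide +kernel

theorem e24_0 : KV.blk KV.R5 pv KC.E2.QT3 KC.E2.QT1 ex bd (KV.qt KE.rb24 0) = true := by
  decide +kernel

theorem k24_1 : KV.okL (KV.qt KE.rb24 1) = true := by decide +kernel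

theorem e24_1 : KV.blk KV.R5 pv KC.E2.QT3 KC.E2.QT1 ex bd (KV.qt KE.rb24 1) = true := by
  decide +kernel

theorem k24_2 : KV.okL (KV.qt KE.rb24 2) = true := by decide +kernel

theorem e24_2 : KV.blk KV.R5 pv KC.E2.QT3 KC.E2.QT1 ex bd (KV.qt KE.rb24 2) = true := by
  decide +kernel

theorem k24_3 : KV.okL (KV.qt KE.rb24 3) = true := by decide +kernel

theorem e24_3 : KV.blk KV.R5 pv KC.E2.QT3 KC.E2.QT1 ex bd (KV.qt KE.rb24 3) = true := by
  decide +kernel

theorem k25_0 : KV.okL (KV.qt KE.rb25 0) = true := by decide +kernel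

theorem e25_0 : KV.blk KV.R5 pv KC.E2.QT3 KC.E2.QT1 ex bd (KV.qt KE.rb25 0) = true := by
  decide +kernel

theorem k25_1 : KV.okL (KV.qt KE.rb25 1) = true := by decide +kernel

theorem e25_1 : KV.blk KV.R5 pv KC.E2.QT3 KC.E2.QT1 ex bd (KV.qt KE.rb25 1) = true := by
  decide +kernel

theorem k25_2 : KV.okL (KV.qt KE.rb25 2) = true := by decide +kernel

theorem e25_2 : KV.blk KV.R5 pv KC.E2.QT3 KC.E2.QT1 ex bd (KV.qt KE.rb25 2) = true := by
  decide +kernel

theorem k25_3 : KV.okL (KV.qt KE.rb25 3) = true := by decide +kernel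

theorem e25_3 : KV.blk KV.R5 pv KC.E2.QT3 KC.E2.QT1 ex bd (KV.qt KE.rb25 3) = true := by
  decide +kernel

theorem k26_0 : KV.okL (KV.qt KE.rb26 0) = true := by decide +kernel

theorem e26_0 : KV.blk KV.R5 pv KC.E2.QT3 KC.E2.QT1 ex bd (KV.qt KE.rb26 0) = true := by
  decide +kernel

theorem k26_1 : KV.okL (KV.qt KE.rb26 1) = true := by decide +kernel

theorem e26_1 : KV.blk KV.R5 pv KC.E2.QT3 KC.E2.QT1 ex bd (KV.qt KE.rb26 1) = true := by
  decide +kernel

theorem k26_2 : KV.okL (KV.qt KE.rb26 2) = true := by decide +kernel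

theorem e26_2 : KV.blk KV.R5 pv KC.E2.QT3 KC.E2.QT1 ex bd (KV.qt KE.rb26 2) = true := by
  decide +kernel

theorem k26_3 : KV.okL (KV.qt KE.rb26 3) = true := by decide +kernel

theorem e26_3 : KV.blk KV.R5 pv KC.E2.QT3 KC.E2.QT1 ex bd (KV.qt KE.rb26 3) = true := by
  decide +kernel

theorem k27_0 : KV.okL (KV.qt KE.rb27 0) = true := by decide +kernel

theorem e27_0 : KV.blk KV.R5 pv KC.E2.QT3 KC.E2.QT1 ex bd (KV.qt KE.rb27 0) = true := by
  decide +kernel

theorem k27_1 : KV.okL (KV.qt KE.rb27 1) = true := by decide +kernel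

theorem e27_1 : KV.blk KV.R5 pv KC.E2.QT3 KC.E2.QT1 ex bd (KV.qt KE.rb27 1) = true := by
  decide +kernel

theorem k27_2 : KV.okL (KV.qt KE.rb27 2) = true := by decide +kernel

theorem e27_2 : KV.blk KV.R5 pv KC.E2.QT3 KC.E2.QT1 ex bd (KV.qt KE.rb27 2) = true := by
  decide +kernel

theorem k27_3 : KV.okL (KV.qt KE.rb27 3) = true := by decide +kernel

theorem e27_3 : KV.blk KV.R5 pv KC.E2.QT3 KC.E2.QT1 ex bd (KV.qt KE.rb27 3) = true := by
  decide +kernel

end KC.E2f
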