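import Pool.Agent.Helper13.KC.E2f.Fn
import Pool.Agent.Helper41.KV.EvD
import Pool.Agent.Helper41.KV.R5
import Pool.Agent.Helper41.KE.Reps

set_option autoImplicit false
set_option maxRecDepth 100000

/-!
Evaluation of four blocks.
-/

namespace KC.E2f

theorem k28_0 : KV.okL (KV.qt KE.rb28 0) = true := by decide +kernel

theorem e28_0 : KV.blk KV.R5 pv KC.E2.QT3 KC.E2.QT1 ex bd (KV.qt KE.rb28 0) = true := by
  decide +kernel

theorem k28_1 : KV.okL (KV.qt KE.rb28 1) = true := by decide +kernel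

theorem e28_1 : KV.blk KV.R5 pv KC.E2.QT3 KC.E2.QT1 ex bd (KV.qt KE.rb28 1) = true := by
  decide +kernel

theorem k28_2 : KV.okL (KV.qt KE.rb28 2) = true := by decide +kernel

theorem e28_2 : KV.blk KV.R5 pv KC.E2.QT3 KC.E2.QT1 ex bd (KV.qt KE.rb28 2) = true := by
  decide +kernel

theorem k28_3 : KV.okL (KV.qt KE.rb28 3) = true := by decide +kernel

theorem e28_3 : KV.blk KV.R5 pv KC.E2.QT3 KC.E2.QT1 ex bd (KV.qt KE.rb28 3) = true := by
  decide +kernel

theorem k29_0 : KV.okL (KV.qt KE.rb29 0) = true := by decide +kernel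

theorem e29_0 : KV.blk KV.R5 pv KC.E2.QT3 KC.E2.QT1 ex bd (KV.qt KE.rb29 0) = true := by
  decide +kernel

theorem k29_1 : KV.okL (KV.qt KE.rb29 1) = true := by decide +kernel

theorem e29_1 : KV.blk KV.R5 pv KC.E2.QT3 KC.E2.QT1 ex bd (KV.qt KE.rb29 1) = true := by
  decide +kernel

theorem k29_2 : KV.okL (KV.qt KE.rb29 2) = true := by decide +kernel

theorem e29_2 : KV.blk KV.R5 pv KC.E2.QT3 KC.E2.QT1 ex bd (KV.qt KE.rb29 2) = true := by
  decide +kernel

theorem k29_3 : KV.okL (KV.qt KE.rb29 3) = true := by decide +kernel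

theorem e29_3 : KV.blk KV.R5 pv KC.E2.QT3 KC.E2.QT1 ex bd (KV.qt KE.rb29 3) = true := by
  decide +kernel

theorem k30_0 : KV.okL (KV.qt KE.rb30 0) = true := by decide +kernel

theorem e30_0 : KV.blk KV.R5 pv KC.E2.QT3 KC.E2.QT1 ex bd (KV.qt KE.rb30 0) = true := by
  decide +kernel

theorem k30_1 : KV.okL (KV.qt KE.rb30 1) = true := by decide +kernel

theorem e30_1 : KV.blk KV.R5 pv KC.E2.QT3 KC.E2.QT1 ex bd (KV.qt KE.rb30 1) = true := by
  decide +kernel

theorem k30_2 : KV.okL (KV.qt KE.rb30 2) = true := by decide +kernel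

theorem e30_2 : KV.blk KV.R5 pv KC.E2.QT3 KC.E2.QT1 ex bd (KV.qt KE.rb30 2) = true := by
  decide +kernel

theorem k30_3 : KV.okL (KV.qt KE.rb30 3) = true := by decide +kernel

theorem e30_3 : KV.blk KV.R5 pv KC.E2.QT3 KC.E2.QT1 ex bd (KV.qt KE.rb30 3) = true := by
  decide +kernel

theorem k31_0 : KV.okL (KV.qt KE.rb31 0) = true := by decide +kernel

theorem e31_0 : KV.blk KV.R5 pv KC.E2.QT3 KC.E2.QT1 ex bd (KV.qt KE.rb31 0) = true := by
  decide +kernel

theorem k31_1 : KV.okL (KV.qt KE.rb31 1) = true := by decide +kernel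

theorem e31_1 : KV.blk KV.R5 pv KC.E2.QT3 KC.E2.QT1 ex bd (KV.qt KE.rb31 1) = true := by
  decide +kernel

theorem k31_2 : KV.okL (KV.qt KE.rb31 2) = true := by decide +kernel

theorem e31_2 : KV.blk KV.R5 pv KC.E2.QT3 KC.E2.QT1 ex bd (KV.qt KE.rb31 2) = true := by
  decide +kernel

theorem k31_3 : KV.okL (KV.qt KE.rb31 3) = true := by decide +kernel

theorem e31_3 : KV.blk KV.R5 pv KC.E2.QT3 KC.E2.QT1 ex bd (KV.qt KE.rb31 3) = true := by
  decide +kernel

end KC.E2f
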