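import Pool.Agent.Helper13.KC.E2f.Fn
import Pool.Agent.Helper41.KV.EvD
import Pool.Agent.Helper41.KV.R5
import Pool.Agent.Helper41.KE.Reps

set_option autoImplicit false
set_option maxRecDepth 100000

/-!
Evaluation of four blocks.
-/

namespace KC.E2f

theorem k32_0 : KV.okL (KV.qt KE.rb32 0) = true := by decide +kernel

theorem e32_0 : KV.blk KV.R5 pv KC.E2.QT3 KC.E2.QT1 ex bd (KV.qt KE.rb32 0) = true := by
  decide +kernel

theorem k32_1 : KV.okL (KV.qt KE.rb32 1) = true := by decide +kernel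

theorem e32_1 : KV.blk KV.R5 pv KC.E2.QT3 KC.E2.QT1 ex bd (KV.qt KE.rb32 1) = true := by
  decide +kernel

theorem k32_2 : KV.okL (KV.qt KE.rb32 2) = true := by decide +kernel

theorem e32_2 : KV.blk KV.R5 pv KC.E2.QT3 KC.E2.QT1 ex bd (KV.qt KE.rb32 2) = true := by
  decide +kernel

theorem k32_3 : KV.okL (KV.qt KE.rb32 3) = true := by decide +kernel

theorem e32_3 : KV.blk KV.R5 pv KC.E2.QT3 KC.E2.QT1 ex bd (KV.qt KE.rb32 3) = true := by
  decide +kernel

theorem k33_0 : KV.okL (KV.qt KE.rb33 0) = true := by decide +kernel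

theorem e33_0 : KV.blk KV.R5 pv KC.E2.QT3 KC.E2.QT1 ex bd (KV.qt KE.rb33 0) = true := by
  decide +kernel

theorem k33_1 : KV.okL (KV.qt KE.rb33 1) = true := by decide +kernel

theorem e33_1 : KV.blk KV.R5 pv KC.E2.QT3 KC.E2.QT1 ex bd (KV.qt KE.rb33 1) = true := by
  decide +kernel

theorem k33_2 : KV.okL (KV.qt KE.rb33 2) = true := by decide +kernel

theorem e33_2 : KV.blk KV.R5 pv KC.E2.QT3 KC.E2.QT1 ex bd (KV.qt KE.rb33 2) = true := by
  decide +kernel

theorem k33_3 : KV.okL (KV.qt KE.rb33 3) = true := by decide +kernel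

theorem e33_3 : KV.blk KV.R5 pv KC.E2.QT3 KC.E2.QT1 ex bd (KV.qt KE.rb33 3) = true := by
  decide +kernel

theorem k34_0 : KV.okL (KV.qt KE.rb34 0) = true := by decide +kernel

theorem e34_0 : KV.blk KV.R5 pv KC.E2.QT3 KC.E2.QT1 ex bd (KV.qt KE.rb34 0) = true := by
  decide +kernel

theorem k34_1 : KV.okL (KV.qt KE.rb34 1) = true := by decide +kernel

theorem e34_1 : KV.blk KV.R5 pv KC.E2.QT3 KC.E2.QT1 ex bd (KV.qt KE.rb34 1) = true := by
  decide +kernel

theorem k34_2 : KV.okL (KV.qt KE.rb34 2) = true := by decide +kernel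

theorem e34_2 : KV.blk KV.R5 pv KC.E2.QT3 KC.E2.QT1 ex bd (KV.qt KE.rb34 2) = true := by
  decide +kernel

theorem k34_3 : KV.okL (KV.qt KE.rb34 3) = true := by decide +kernel

theorem e34_3 : KV.blk KV.R5 pv KC.E2.QT3 KC.E2.QT1 ex bd (KV.qt KE.rb34 3) = true := by
  decide +kernel

theorem k35_0 : KV.okL (KV.qt KE.rb35 0) = true := by decide +kernel

theorem e35_0 : KV.blk KV.R5 pv KC.E2.QT3 KC.E2.QT1 ex bd (KV.qt KE.rb35 0) = true := by
  decide +kernel

theorem k35_1 : KV.okL (KV.qt KE.rb35 1) = true := by decide +kernel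

theorem e35_1 : KV.blk KV.R5 pv KC.E2.QT3 KC.E2.QT1 ex bd (KV.qt KE.rb35 1) = true := by
  decide +kernel

theorem k35_2 : KV.okL (KV.qt KE.rb35 2) = true := by decide +kernel

theorem e35_2 : KV.blk KV.R5 pv KC.E2.QT3 KC.E2.QT1 ex bd (KV.qt KE.rb35 2) = true := by
  decide +kernel

theorem k35_3 : KV.okL (KV.qt KE.rb35 3) = true := by decide +kernel

theorem e35_3 : KV.blk KV.R5 pv KC.E2.QT3 KC.E2.QT1 ex bd (KV.qt KE.rb35 3) = true := by
  decide +kernel

end KC.E2f
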