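import Pool.Agent.Helper13.KC.E2f.Fn
import Pool.Agent.Helper41.KV.EvD
import Pool.Agent.Helper41.KV.R5
import Pool.Agent.Helper41.KE.Reps

set_option autoImplicit false
set_option maxRecDepth 100000

/-!
Evaluation of four blocks.
-/

namespace KC.E2f

theorem k36_0 : KV.okL (KV.qt KE.rb36 0) = true := by decide +kernel

theorem e36_0 : KV.blk KV.R5 pv KC.E2.QT3 KC.E2.QT1 ex bd (KV.qt KE.rb36 0) = true := by
  decide +kernel

theorem k36_1 : KV.okL (KV.qt KE.rb36 1) = true := by decide +kernel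

theorem e36_1 : KV.blk KV.R5 pv KC.E2.QT3 KC.E2.QT1 ex bd (KV.qt KE.rb36 1) = true := by
  decide +kernel

theorem k36_2 : KV.okL (KV.qt KE.rb36 2) = true := by decide +kernel

theorem e36_2 : KV.blk KV.R5 pv KC.E2.QT3 KC.E2.QT1 ex bd (KV.qt KE.rb36 2) = true := by
  decide +kernel

theorem k36_3 : KV.okL (KV.qt KE.rb36 3) = true := by decide +kernel

theorem e36_3 : KV.blk KV.R5 pv KC.E2.QT3 KC.E2.QT1 ex bd (KV.qt KE.rb36 3) = true := by
  decide +kernel

theorem k37_0 : KV.okL (KV.qt KE.rb37 0) = true := by decide +kernel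

theorem e37_0 : KV.blk KV.R5 pv KC.E2.QT3 KC.E2.QT1 ex bd (KV.qt KE.rb37 0) = true := by
  decide +kernel

theorem k37_1 : KV.okL (KV.qt KE.rb37 1) = true := by decide +kernel

theorem e37_1 : KV.blk KV.R5 pv KC.E2.QT3 KC.E2.QT1 ex bd (KV.qt KE.rb37 1) = true := by
  decide +kernel

theorem k37_2 : KV.okL (KV.qt KE.rb37 2) = true := by decide +kernel

theorem e37_2 : KV.blk KV.R5 pv KC.E2.QT3 KC.E2.QT1 ex bd (KV.qt KE.rb37 2) = true := by
  decide +kernel

theorem k37_3 : KV.okL (KV.qt KE.rb37 3) = true := by decide +kernel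

theorem e37_3 : KV.blk KV.R5 pv KC.E2.QT3 KC.E2.QT1 ex bd (KV.qt KE.rb37 3) = true := by
  decide +kernel

theorem k38_0 : KV.okL (KV.qt KE.rb38 0) = true := by decide +kernel

theorem e38_0 : KV.blk KV.R5 pv KC.E2.QT3 KC.E2.QT1 ex bd (KV.qt KE.rb38 0) = true := by
  decide +kernel

theorem k38_1 : KV.okL (KV.qt KE.rb38 1) = true := by decide +kernel

theorem e38_1 : KV.blk KV.R5 pv KC.E2.QT3 KC.E2.QT1 ex bd (KV.qt KE.rb38 1) = true := by
  decide +kernel

theorem k38_2 : KV.okL (KV.qt KE.rb38 2) = true := by decide +kernel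

theorem e38_2 : KV.blk KV.R5 pv KC.E2.QT3 KC.E2.QT1 ex bd (KV.qt KE.rb38 2) = true := by
  decide +kernel

theorem k38_3 : KV.okL (KV.qt KE.rb38 3) = true := by decide +kernel

theorem e38_3 : KV.blk KV.R5 pv KC.E2.QT3 KC.E2.QT1 ex bd (KV.qt KE.rb38 3) = true := by
  decide +kernel

theorem k39_0 : KV.okL (KV.qt KE.rb39 0) = true := by decide +kernel

theorem e39_0 : KV.blk KV.R5 pv KC.E2.QT3 KC.E2.QT1 ex bd (KV.qt KE.rb39 0) = true := by
  decide +kernel

theorem k39_1 : KV.okL (KV.qt KE.rb39 1) = true := by decide +kernel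

theorem e39_1 : KV.blk KV.R5 pv KC.E2.QT3 KC.E2.QT1 ex bd (KV.qt KE.rb39 1) = true := by
  decide +kernel

theorem k39_2 : KV.okL (KV.qt KE.rb39 2) = true := by decide +kernel

theorem e39_2 : KV.blk KV.R5 pv KC.E2.QT3 KC.E2.QT1 ex bd (KV.qt KE.rb39 2) = true := by
  decide +kernel

theorem k39_3 : KV.okL (KV.qt KE.rb39 3) = true := by decide +kernel

theorem e39_3 : KV.blk KV.R5 pv KC.E2.QT3 KC.E2.QT1 ex bd (KV.qt KE.rb39 3) = true := by
  decide +kernel

end KC.E2f
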