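import Pool.Agent.Helper13.KC.E2f.DT
import Pool.Agent.Helper41.KV.RT
import Pool.Agent.Helper41.KV.EvF
import Pool.Agent.Helper41.KV.WF
import Pool.Agent.Helper13.KC.E2.Tabs
import Pool.Agent.Helper13.KC.E2.E2VT
import Pool.Agent.Helper13.KC.E2.E2D
import Pool.Agent.Helper13.KC.TrM

set_option autoImplicit false
set_option maxRecDepth 100000

/-!
The functions of the evaluation.
-/

namespace KC.E2f

open KC

/-- Integrand of the five-root pass. -/
noncomputable def pv (b fr r x : Nat) : Nat :=
  Nat.add (Nat.add (KV.q5 KC.E2.QT5 b fr x) (KV.qD DT r x))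
    (KV.qF KV.wF 42000000000 36000000000 2100000000 8774432 33554432 b r x)

/-- The cubic families. -/
noncomputable def ex (m : Nat) : Nat :=
  WT.famK treeM (VTab.gVK KC.E2VT.TV 18446744073709551615) m 0

/-- The bound. -/
noncomputable def bd (_ : Nat) : Nat := 25996740825025496133395689734

end KC.E2f
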