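import Pool.Agent.Helper41.KV.FastF
import Pool.Agent.Helper13.KC.E2f.E0
import Pool.Agent.Helper13.KC.E2f.E1
import Pool.Agent.Helper13.KC.E2f.E2
import Pool.Agent.Helper13.KC.E2f.E3
import Pool.Agent.Helper13.KC.E2f.E4
import Pool.Agent.Helper13.KC.E2f.E5
import Pool.Agent.Helper13.KC.E2f.E6
import Pool.Agent.Helper13.KC.E2f.E7
import Pool.Agent.Helper13.KC.E2f.E8
import Pool.Agent.Helper13.KC.E2f.E9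
import Pool.Agent.Helper13.KC.E2f.E10
import Pool.Agent.Helper13.KC.E2f.E11
import Pool.Agent.Helper13.KC.E2f.E12
import Pool.Agent.Helper13.KC.E2f.E13
import Pool.Agent.Helper13.KC.E2f.E14
import Pool.Agent.Helper13.KC.E2f.E15

set_option autoImplicit false
set_option maxRecDepth 100000

/-!
All blocks.
-/

namespace KC.E2f

theorem f0 : ∀ m ∈ KE.rb0, KV.FV KV.R5 pv KC.E2.QT3 KC.E2.QT1 m + ex m ≤ bd m :=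
  KV.blk4 (by decide +kernel) (KV.four k0_0 k0_1 k0_2 k0_3) e0_0 e0_1 e0_2 e0_3

theorem f1 : ∀ m ∈ KE.rb1, KV.FV KV.R5 pv KC.E2.QT3 KC.E2.QT1 m + ex m ≤ bd m :=
  KV.blk4 (by decide +kernel) (KV.four k1_0 k1_1 k1_2 k1_3) e1_0 e1_1 e1_2 e1_3

theorem f2 : ∀ m ∈ KE.rb2, KV.FV KV.R5 pv KC.E2.QT3 KC.E2.QT1 m + ex m ≤ bd m :=
  KV.blk4 (by decide +kernel) (KV.four k2_0 k2_1 k2_2 k2_3) e2_0 e2_1 e2_2 e2_3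

theorem f3 : ∀ m ∈ KE.rb3, KV.FV KV.R5 pv KC.E2.QT3 KC.E2.QT1 m + ex m ≤ bd m :=
  KV.blk4 (by decide +kernel) (KV.four k3_0 k3_1 k3_2 k3_3) e3_0 e3_1 e3_2 e3_3

theorem f4 : ∀ m ∈ KE.rb4, KV.FV KV.R5 pv KC.E2.QT3 KC.E2.QT1 m + ex m ≤ bd m :=
  KV.blk4 (by decide +kernel) (KV.four k4_0 k4_1 k4_2 k4_3) e4_0 e4_1 e4_2 e4_3

theorem f5 : ∀ m ∈ KE.rb5, KV.FV KV.R5 pv KC.E2.QT3 KC.E2.QT1 m + ex m ≤ bd m :=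
  KV.blk4 (by decide +kernel) (KV.four k5_0 k5_1 k5_2 k5_3) e5_0 e5_1 e5_2 e5_3

theorem f6 : ∀ m ∈ KE.rb6, KV.FV KV.R5 pv KC.E2.QT3 KC.E2.QT1 m + ex m ≤ bd m :=
  KV.blk4 (by decide +kernel) (KV.four k6_0 k6_1 k6_2 k6_3) e6_0 e6_1 e6_2 e6_3

theorem f7 : ∀ m ∈ KE.rb7, KV.FV KV.R5 pv KC.E2.QT3 KC.E2.QT1 m + ex m ≤ bd m :=
  KV.blk4 (by decide +kernel) (KV.four k7_0 k7_1 k7_2 k7_3) e7_0 e7_1 e7_2 e7_3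

theorem f8 : ∀ m ∈ KE.rb8, KV.FV KV.R5 pv KC.E2.QT3 KC.E2.QT1 m + ex m ≤ bd m :=
  KV.blk4 (by decide +kernel) (KV.four k8_0 k8_1 k8_2 k8_3) e8_0 e8_1 e8_2 e8_3

theorem f9 : ∀ m ∈ KE.rb9, KV.FV KV.R5 pv KC.E2.QT3 KC.E2.QT1 m + ex m ≤ bd m :=
  KV.blk4 (by decide +kernel) (KV.four k9_0 k9_1 k9_2 k9_3) e9_0 e9_1 e9_2 e9_3

theorem f10 : ∀ m ∈ KE.rb10, KV.FV KV.R5 pv KC.E2.QT3 KC.E2.QT1 m + ex m ≤ bd m :=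
  KV.blk4 (by decide +kernel) (KV.four k10_0 k10_1 k10_2 k10_3) e10_0 e10_1 e10_2 e10_3

theorem f11 : ∀ m ∈ KE.rb11, KV.FV KV.R5 pv KC.E2.QT3 KC.E2.QT1 m + ex m ≤ bd m :=
  KV.blk4 (by decide +kernel) (KV.four k11_0 k11_1 k11_2 k11_3) e11_0 e11_1 e11_2 e11_3

theorem f12 : ∀ m ∈ KE.rb12, KV.FV KV.R5 pv KC.E2.QT3 KC.E2.QT1 m + ex m ≤ bd m :=
  KV.blk4 (by decide +kernel) (KV.four k12_0 k12_1 k12_2 k12_3) e12_0 e12_1 e12_2 e12_3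

theorem f13 : ∀ m ∈ KE.rb13, KV.FV KV.R5 pv KC.E2.QT3 KC.E2.QT1 m + ex m ≤ bd m :=
  KV.blk4 (by decide +kernel) (KV.four k13_0 k13_1 k13_2 k13_3) e13_0 e13_1 e13_2 e13_3

theorem f14 : ∀ m ∈ KE.rb14, KV.FV KV.R5 pv KC.E2.QT3 KC.E2.QT1 m + ex m ≤ bd m :=
  KV.blk4 (by decide +kernel) (KV.four k14_0 k14_1 k14_2 k14_3) e14_0 e14_1 e14_2 e14_3

theorem f15 : ∀ m ∈ KE.rb15, KV.FV KV.R5 pv KC.E2.QT3 KC.E2.QT1 m + ex m ≤ bd m :=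
  KV.blk4 (by decide +kernel) (KV.four k15_0 k15_1 k15_2 k15_3) e15_0 e15_1 e15_2 e15_3

theorem f16 : ∀ m ∈ KE.rb16, KV.FV KV.R5 pv KC.E2.QT3 KC.E2.QT1 m + ex m ≤ bd m :=
  KV.blk4 (by decide +kernel) (KV.four k16_0 k16_1 k16_2 k16_3) e16_0 e16_1 e16_2 e16_3

theorem f17 : ∀ m ∈ KE.rb17, KV.FV KV.R5 pv KC.E2.QT3 KC.E2.QT1 m + ex m ≤ bd m :=
  KV.blk4 (by decide +kernel) (KV.four k17_0 k17_1 k17_2 k17_3) e17_0 e17_1 e17_2 e17_3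

theorem f18 : ∀ m ∈ KE.rb18, KV.FV KV.R5 pv KC.E2.QT3 KC.E2.QT1 m + ex m ≤ bd m :=
  KV.blk4 (by decide +kernel) (KV.four k18_0 k18_1 k18_2 k18_3) e18_0 e18_1 e18_2 e18_3

theorem f19 : ∀ m ∈ KE.rb19, KV.FV KV.R5 pv KC.E2.QT3 KC.E2.QT1 m + ex m ≤ bd m :=
  KV.blk4 (by decide +kernel) (KV.four k19_0 k19_1 k19_2 k19_3) e19_0 e19_1 e19_2 e19_3

theorem f20 : ∀ m ∈ KE.rb20, KV.FV KV.R5 pv KC.E2.QT3 KC.E2.QT1 m + ex m ≤ bd m :=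
  KV.blk4 (by decide +kernel) (KV.four k20_0 k20_1 k20_2 k20_3) e20_0 e20_1 e20_2 e20_3

theorem f21 : ∀ m ∈ KE.rb21, KV.FV KV.R5 pv KC.E2.QT3 KC.E2.QT1 m + ex m ≤ bd m :=
  KV.blk4 (by decide +kernel) (KV.four k21_0 k21_1 k21_2 k21_3) e21_0 e21_1 e21_2 e21_3

theorem f22 : ∀ m ∈ KE.rb22, KV.FV KV.R5 pv KC.E2.QT3 KC.E2.QT1 m + ex m ≤ bd m :=
  KV.blk4 (by decide +kernel) (KV.four k22_0 k22_1 k22_2 k22_3) e22_0 e22_1 e22_2 e22_3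

theorem f23 : ∀ m ∈ KE.rb23, KV.FV KV.R5 pv KC.E2.QT3 KC.E2.QT1 m + ex m ≤ bd m :=
  KV.blk4 (by decide +kernel) (KV.four k23_0 k23_1 k23_2 k23_3) e23_0 e23_1 e23_2 e23_3

theorem f24 : ∀ m ∈ KE.rb24, KV.FV KV.R5 pv KC.E2.QT3 KC.E2.QT1 m + ex m ≤ bd m :=
  KV.blk4 (by decide +kernel) (KV.four k24_0 k24_1 k24_2 k24_3) e24_0 e24_1 e24_2 e24_3

theorem f25 : ∀ m ∈ KE.rb25, KV.FV KV.R5 pv KC.E2.QT3 KC.E2.QT1 m + ex m ≤ bd m :=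
  KV.blk4 (by decide +kernel) (KV.four k25_0 k25_1 k25_2 k25_3) e25_0 e25_1 e25_2 e25_3

theorem f26 : ∀ m ∈ KE.rb26, KV.FV KV.R5 pv KC.E2.QT3 KC.E2.QT1 m + ex m ≤ bd m :=
  KV.blk4 (by decide +kernel) (KV.four k26_0 k26_1 k26_2 k26_3) e26_0 e26_1 e26_2 e26_3

theorem f27 : ∀ m ∈ KE.rb27, KV.FV KV.R5 pv KC.E2.QT3 KC.E2.QT1 m + ex m ≤ bd m :=
  KV.blk4 (by decide +kernel) (KV.four k27_0 k27_1 k27_2 k27_3) e27_0 e27_1 e27_2 e27_3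

theorem f28 : ∀ m ∈ KE.rb28, KV.FV KV.R5 pv KC.E2.QT3 KC.E2.QT1 m + ex m ≤ bd m :=
  KV.blk4 (by decide +kernel) (KV.four k28_0 k28_1 k28_2 k28_3) e28_0 e28_1 e28_2 e28_3

theorem f29 : ∀ m ∈ KE.rb29, KV.FV KV.R5 pv KC.E2.QT3 KC.E2.QT1 m + ex m ≤ bd m :=
  KV.blk4 (by decide +kernel) (KV.four k29_0 k29_1 k29_2 k29_3) e29_0 e29_1 e29_2 e29_3

theorem f30 : ∀ m ∈ KE.rb30, KV.FV KV.R5 pv KC.E2.QT3 KC.E2.QT1 m + ex m ≤ bd m :=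
  KV.blk4 (by decide +kernel) (KV.four k30_0 k30_1 k30_2 k30_3) e30_0 e30_1 e30_2 e30_3

theorem f31 : ∀ m ∈ KE.rb31, KV.FV KV.R5 pv KC.E2.QT3 KC.E2.QT1 m + ex m ≤ bd m :=
  KV.blk4 (by decide +kernel) (KV.four k31_0 k31_1 k31_2 k31_3) e31_0 e31_1 e31_2 e31_3

theorem f32 : ∀ m ∈ KE.rb32, KV.FV KV.R5 pv KC.E2.QT3 KC.E2.QT1 m + ex m ≤ bd m :=
  KV.blk4 (by decide +kernel) (KV.four k32_0 k32_1 k32_2 k32_3) e32_0 e32_1 e32_2 e32_3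

theorem f33 : ∀ m ∈ KE.rb33, KV.FV KV.R5 pv KC.E2.QT3 KC.E2.QT1 m + ex m ≤ bd m :=
  KV.blk4 (by decide +kernel) (KV.four k33_0 k33_1 k33_2 k33_3) e33_0 e33_1 e33_2 e33_3

theorem f34 : ∀ m ∈ KE.rb34, KV.FV KV.R5 pv KC.E2.QT3 KC.E2.QT1 m + ex m ≤ bd m :=
  KV.blk4 (by decide +kernel) (KV.four k34_0 k34_1 k34_2 k34_3) e34_0 e34_1 e34_2 e34_3

theorem f35 : ∀ m ∈ KE.rb35, KV.FV KV.R5 pv KC.E2.QT3 KC.E2.QT1 m + ex m ≤ bd m :=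
  KV.blk4 (by decide +kernel) (KV.four k35_0 k35_1 k35_2 k35_3) e35_0 e35_1 e35_2 e35_3

theorem f36 : ∀ m ∈ KE.rb36, KV.FV KV.R5 pv KC.E2.QT3 KC.E2.QT1 m + ex m ≤ bd m :=
  KV.blk4 (by decide +kernel) (KV.four k36_0 k36_1 k36_2 k36_3) e36_0 e36_1 e36_2 e36_3

theorem f37 : ∀ m ∈ KE.rb37, KV.FV KV.R5 pv KC.E2.QT3 KC.E2.QT1 m + ex m ≤ bd m :=
  KV.blk4 (by decide +kernel) (KV.four k37_0 k37_1 k37_2 k37_3) e37_0 e37_1 e37_2 e37_3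

theorem f38 : ∀ m ∈ KE.rb38, KV.FV KV.R5 pv KC.E2.QT3 KC.E2.QT1 m + ex m ≤ bd m :=
  KV.blk4 (by decide +kernel) (KV.four k38_0 k38_1 k38_2 k38_3) e38_0 e38_1 e38_2 e38_3

theorem f39 : ∀ m ∈ KE.rb39, KV.FV KV.R5 pv KC.E2.QT3 KC.E2.QT1 m + ex m ≤ bd m :=
  KV.blk4 (by decide +kernel) (KV.four k39_0 k39_1 k39_2 k39_3) e39_0 e39_1 e39_2 e39_3

theorem f40 : ∀ m ∈ KE.rb40, KV.FV KV.R5 pv KC.E2.QT3 KC.E2.QT1 m + ex m ≤ bd m :=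
  KV.blk4 (by decide +kernel) (KV.four k40_0 k40_1 k40_2 k40_3) e40_0 e40_1 e40_2 e40_3

theorem f41 : ∀ m ∈ KE.rb41, KV.FV KV.R5 pv KC.E2.QT3 KC.E2.QT1 m + ex m ≤ bd m :=
  KV.blk4 (by decide +kernel) (KV.four k41_0 k41_1 k41_2 k41_3) e41_0 e41_1 e41_2 e41_3

theorem f42 : ∀ m ∈ KE.rb42, KV.FV KV.R5 pv KC.E2.QT3 KC.E2.QT1 m + ex m ≤ bd m :=
  KV.blk4 (by decide +kernel) (KV.four k42_0 k42_1 k42_2 k42_3) e42_0 e42_1 e42_2 e42_3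

theorem f43 : ∀ m ∈ KE.rb43, KV.FV KV.R5 pv KC.E2.QT3 KC.E2.QT1 m + ex m ≤ bd m :=
  KV.blk4 (by decide +kernel) (KV.four k43_0 k43_1 k43_2 k43_3) e43_0 e43_1 e43_2 e43_3

theorem f44 : ∀ m ∈ KE.rb44, KV.FV KV.R5 pv KC.E2.QT3 KC.E2.QT1 m + ex m ≤ bd m :=
  KV.blk4 (by decide +kernel) (KV.four k44_0 k44_1 k44_2 k44_3) e44_0 e44_1 e44_2 e44_3

theorem f45 : ∀ m ∈ KE.rb45, KV.FV KV.R5 pv KC.E2.QT3 KC.E2.QT1 m + ex m ≤ bd m :=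
  KV.blk4 (by decide +kernel) (KV.four k45_0 k45_1 k45_2 k45_3) e45_0 e45_1 e45_2 e45_3

theorem f46 : ∀ m ∈ KE.rb46, KV.FV KV.R5 pv KC.E2.QT3 KC.E2.QT1 m + ex m ≤ bd m :=
  KV.blk4 (by decide +kernel) (KV.four k46_0 k46_1 k46_2 k46_3) e46_0 e46_1 e46_2 e46_3

theorem f47 : ∀ m ∈ KE.rb47, KV.FV KV.R5 pv KC.E2.QT3 KC.E2.QT1 m + ex m ≤ bd m :=
  KV.blk4 (by decide +kernel) (KV.four k47_0 k47_1 k47_2 k47_3) e47_0 e47_1 e47_2 e47_3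

theorem f48 : ∀ m ∈ KE.rb48, KV.FV KV.R5 pv KC.E2.QT3 KC.E2.QT1 m + ex m ≤ bd m :=
  KV.blk4 (by decide +kernel) (KV.four k48_0 k48_1 k48_2 k48_3) e48_0 e48_1 e48_2 e48_3

theorem f49 : ∀ m ∈ KE.rb49, KV.FV KV.R5 pv KC.E2.QT3 KC.E2.QT1 m + ex m ≤ bd m :=
  KV.blk4 (by decide +kernel) (KV.four k49_0 k49_1 k49_2 k49_3) e49_0 e49_1 e49_2 e49_3

theorem f50 : ∀ m ∈ KE.rb50, KV.FV KV.R5 pv KC.E2.QT3 KC.E2.QT1 m + ex m ≤ bd m :=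
  KV.blk4 (by decide +kernel) (KV.four k50_0 k50_1 k50_2 k50_3) e50_0 e50_1 e50_2 e50_3

theorem f51 : ∀ m ∈ KE.rb51, KV.FV KV.R5 pv KC.E2.QT3 KC.E2.QT1 m + ex m ≤ bd m :=
  KV.blk4 (by decide +kernel) (KV.four k51_0 k51_1 k51_2 k51_3) e51_0 e51_1 e51_2 e51_3

theorem f52 : ∀ m ∈ KE.rb52, KV.FV KV.R5 pv KC.E2.QT3 KC.E2.QT1 m + ex m ≤ bd m :=
  KV.blk4 (by decide +kernel) (KV.four k52_0 k52_1 k52_2 k52_3) e52_0 e52_1 e52_2 e52_3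

theorem f53 : ∀ m ∈ KE.rb53, KV.FV KV.R5 pv KC.E2.QT3 KC.E2.QT1 m + ex m ≤ bd m :=
  KV.blk4 (by decide +kernel) (KV.four k53_0 k53_1 k53_2 k53_3) e53_0 e53_1 e53_2 e53_3

theorem f54 : ∀ m ∈ KE.rb54, KV.FV KV.R5 pv KC.E2.QT3 KC.E2.QT1 m + ex m ≤ bd m :=
  KV.blk4 (by decide +kernel) (KV.four k54_0 k54_1 k54_2 k54_3) e54_0 e54_1 e54_2 e54_3

theorem f55 : ∀ m ∈ KE.rb55, KV.FV KV.R5 pv KC.E2.QT3 KC.E2.QT1 m + ex m ≤ bd m :=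
  KV.blk4 (by decide +kernel) (KV.four k55_0 k55_1 k55_2 k55_3) e55_0 e55_1 e55_2 e55_3

theorem f56 : ∀ m ∈ KE.rb56, KV.FV KV.R5 pv KC.E2.QT3 KC.E2.QT1 m + ex m ≤ bd m :=
  KV.blk4 (by decide +kernel) (KV.four k56_0 k56_1 k56_2 k56_3) e56_0 e56_1 e56_2 e56_3

theorem f57 : ∀ m ∈ KE.rb57, KV.FV KV.R5 pv KC.E2.QT3 KC.E2.QT1 m + ex m ≤ bd m :=
  KV.blk4 (by decide +kernel) (KV.four k57_0 k57_1 k57_2 k57_3) e57_0 e57_1 e57_2 e57_3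

theorem f58 : ∀ m ∈ KE.rb58, KV.FV KV.R5 pv KC.E2.QT3 KC.E2.QT1 m + ex m ≤ bd m :=
  KV.blk4 (by decide +kernel) (KV.four k58_0 k58_1 k58_2 k58_3) e58_0 e58_1 e58_2 e58_3

theorem f59 : ∀ m ∈ KE.rb59, KV.FV KV.R5 pv KC.E2.QT3 KC.E2.QT1 m + ex m ≤ bd m :=
  KV.blk4 (by decide +kernel) (KV.four k59_0 k59_1 k59_2 k59_3) e59_0 e59_1 e59_2 e59_3

theorem f60 : ∀ m ∈ KE.rb60, KV.FV KV.R5 pv KC.E2.QT3 KC.E2.QT1 m + ex m ≤ bd m :=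
  KV.blk4 (by decide +kernel) (KV.four k60_0 k60_1 k60_2 k60_3) e60_0 e60_1 e60_2 e60_3

theorem f61 : ∀ m ∈ KE.rb61, KV.FV KV.R5 pv KC.E2.QT3 KC.E2.QT1 m + ex m ≤ bd m :=
  KV.blk4 (by decide +kernel) (KV.four k61_0 k61_1 k61_2 k61_3) e61_0 e61_1 e61_2 e61_3

theorem f62 : ∀ m ∈ KE.rb62, KV.FV KV.R5 pv KC.E2.QT3 KC.E2.QT1 m + ex m ≤ bd m :=
  KV.blk4 (by decide +kernel) (KV.four k62_0 k62_1 k62_2 k62_3) e62_0 e62_1 e62_2 e62_3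

theorem f63 : ∀ m ∈ KE.rb63, KV.FV KV.R5 pv KC.E2.QT3 KC.E2.QT1 m + ex m ≤ bd m :=
  KV.blk4 (by decide +kernel) (KV.four k63_0 k63_1 k63_2 k63_3) e63_0 e63_1 e63_2 e63_3

theorem fall : ∀ m ∈ KE.reps7, KV.FV KV.R5 pv KC.E2.QT3 KC.E2.QT1 m + ex m ≤ bd m := by
  refine KE.forall_reps7 ?_
  unfold KE.blks
  simp only [List.forall_mem_cons]
  exact ⟨f0, f1, f2, f3, f4, f5, f6, f7, f8, f9, f10, f11, f12, f13, f14, f15, f16, f17, f18, f19, f20, f21, f22, f23, f24, f25, f26, f27, f28, f29, f30, f31, f32, f33, f34, f35, f36, f37, f38, f39, f40, f41, f42, f43, f44, f45, f46, f47, f48, f49, f50, f51, f52, f53, f54, f55, f56, f57, f58, f59, f60, f61, f62, f63,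
    fun _ h => absurd h List.not_mem_nil⟩

end KC.E2f
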